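import Pool.Agent.K3h30.RS.Core
import Pool.Agent.K3h24.RS.Det
import Pool.Agent.K3h12.RS.Ext
import Pool.Agent.K3h73.RS.Lam

/-!
# Characters with the same Frobenius data: the algebraic part
-/

set_option autoImplicit false

noncomputable section

namespace Pool.Agent.U360.RS

open Pool.Agent.K3h30.RS

theorem mem_torsion_iff {A : Type} [AddCommGroup A] (a : A) :
    a ∈ Submodule.torsion ℤ A ↔ IsOfFinAddOrder a := by
  rw [isOfFinAddOrder_iff_zsmul_eq_zero]
  constructor
  · rintro ⟨n, hn⟩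
    exact ⟨(n : ℤ), nonZeroDivisors.coe_ne_zero n, hn⟩
  · rintro ⟨n, hn0, hn⟩
    exact ⟨⟨n, mem_nonZeroDivisors_of_ne_zero hn0⟩, hn⟩

/-- lifting of homomorphisms to `ℚ / ℤ` which kill the torsion -/
theorem lift_tors {A : Type} [AddCommGroup A] [AddGroup.FG A] (χ : A →+ QZ)
    (h : ∀ a : A, IsOfFinAddOrder a → χ a = 0) :
    ∃ g : A →+ ℚ, ∀ a, ((g a : ℚ) : QZ) = χ a := by
  haveI : Module.Finite ℤ A := Module.Finite.iff_addGroup_fg.mpr inferInstance
  let π : ℚ →ₗ[ℤ] QZ := (QuotientAddGroup.mk' (AddSubgroup.zmultiples (1 : ℚ))).toIntLinearMap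
  have hπ : Function.Surjective π := QuotientAddGroup.mk'_surjective _
  have hker : Submodule.torsion ℤ A ≤ LinearMap.ker χ.toIntLinearMap := by
    intro a ha
    rw [LinearMap.mem_ker]
    exact h a ((mem_torsion_iff a).1 ha)
  obtain ⟨h', hh⟩ := Module.projective_lifting_property π
    ((Submodule.torsion ℤ A).liftQ χ.toIntLinearMap hker) hπ
  exact ⟨(h'.comp (Submodule.mkQ (Submodule.torsion ℤ A))).toAddMonoidHom,
    fun a => LinearMap.congr_fun hh (Submodule.mkQ (Submodule.torsion ℤ A) a)⟩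

/-- an endomorphism which kills the torsion and is the identity modulo the torsion -/
theorem exists_split (A : Type) [AddCommGroup A] [AddGroup.FG A] :
    ∃ ρ : A →+ A, (∀ a, IsOfFinAddOrder a → ρ a = 0) ∧ ∀ a, IsOfFinAddOrder (a - ρ a) := by
  haveI : Module.Finite ℤ A := Module.Finite.iff_addGroup_fg.mpr inferInstance
  obtain ⟨h, hh⟩ := Module.projective_lifting_property
    (Submodule.mkQ (Submodule.torsion ℤ A)) LinearMap.id (Submodule.mkQ_surjective _)
  refine ⟨(h.comp (Submodule.mkQ (Submodule.torsion ℤ A))).toAddMonoidHom, fun a ha => ?_,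
    fun a => ?_⟩
  · have h1 : Submodule.mkQ (Submodule.torsion ℤ A) a = 0 := by
      rw [Submodule.mkQ_apply, Submodule.Quotient.mk_eq_zero]
      exact (mem_torsion_iff a).2 ha
    change h (Submodule.mkQ (Submodule.torsion ℤ A) a) = 0
    rw [h1, map_zero]
  · rw [← mem_torsion_iff]
    rw [← Submodule.Quotient.mk_eq_zero, ← Submodule.mkQ_apply, map_sub, sub_eq_zero]
    exact (LinearMap.congr_fun hh (Submodule.mkQ (Submodule.torsion ℤ A) a)).symm

/-- **The comparison of the lifts.** -/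
theorem kummer {U : Type} [AddCommGroup U] [AddGroup.FG U] (Φ : U ≃+ U) (r r' : U →+ QZ)
    (q q' : ℕ) (hr : ∀ y, r (Φ y) = q • r y) (hr' : ∀ y, r' (Φ y) = q' • r' y)
    (htor : ∀ y, IsOfFinAddOrder y → r y = r' y) (N w : ℕ)
    (hT : ∀ y : U, IsOfFinAddOrder y → (w * N) • y = 0) :
    ∃ s s' : U →+ ℚ,
      (∀ y, w • ((s (N • y) : ℚ) : QZ) = w • r (N • y)) ∧
      (∀ y, w • ((s' (N • y) : ℚ) : QZ) = w • r' (N • y)) ∧
      (∀ y, ((s y - s' y : ℚ) : QZ) = r y - r' y) ∧
      ∀ y, ∃ z : ℤ, (s y - q * s (Φ.symm y)) - (s' y - q' * s' (Φ.symm y)) = z := by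
  obtain ⟨ρ, hρ1, hρ2⟩ := exists_split U
  obtain ⟨s, hs⟩ := lift_tors (r.comp ρ) (fun a ha => by
    rw [AddMonoidHom.comp_apply, hρ1 a ha, map_zero])
  obtain ⟨s', hs'⟩ := lift_tors (r'.comp ρ) (fun a ha => by
    rw [AddMonoidHom.comp_apply, hρ1 a ha, map_zero])
  have hw : ∀ (t : U →+ QZ) (y : U), w • t (ρ (N • y)) = w • t (N • y) := by
    intro t y
    have h1 : (w * N) • (y - ρ y) = 0 := hT _ (hρ2 y)
    have h2 : w • t (N • y) - w • t (ρ (N • y)) = 0 := by
      rw [← smul_sub, ← map_sub, ← map_nsmul, map_nsmul ρ, ← smul_sub, smul_smul, h1, map_zero]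
    exact (sub_eq_zero.1 h2).symm
  refine ⟨s, s', fun y => ?_, fun y => ?_, fun y => ?_, fun y => ?_⟩
  · rw [hs, AddMonoidHom.comp_apply, hw]
  · rw [hs', AddMonoidHom.comp_apply, hw]
  · rw [AddCircle.coe_sub, hs, hs', AddMonoidHom.comp_apply, AddMonoidHom.comp_apply]
    have h1 := htor _ (hρ2 y)
    rw [map_sub, map_sub] at h1
    rw [sub_eq_sub_iff_add_eq_add] at h1 ⊢
    rw [add_comm (r (ρ y)), ← h1, add_comm]
  · have key : IsOfFinAddOrder (ρ y - Φ (ρ (Φ.symm y))) := by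
      have h1 := hρ2 y
      have h2 := hρ2 (Φ.symm y)
      have h3 : IsOfFinAddOrder (Φ (Φ.symm y - ρ (Φ.symm y))) :=
        AddMonoidHom.isOfFinAddOrder (Φ : U →+ U) h2
      have h4 : ρ y - Φ (ρ (Φ.symm y)) = Φ (Φ.symm y - ρ (Φ.symm y)) - (y - ρ y) := by
        rw [map_sub, AddEquiv.apply_symm_apply]
        abel
      rw [h4, sub_eq_add_neg]
      exact h3.add h1.neg
    have h1 := htor _ key
    rw [map_sub, map_sub, hr, hr'] at h1
    have h2 : (((s y - q * s (Φ.symm y)) - (s' y - q' * s' (Φ.symm y)) : ℚ) : QZ) = 0 := by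
      rw [AddCircle.coe_sub, AddCircle.coe_sub, AddCircle.coe_sub, ← nsmul_eq_mul, ← nsmul_eq_mul,
        AddCircle.coe_nsmul, AddCircle.coe_nsmul, hs, hs, hs', hs', AddMonoidHom.comp_apply,
        AddMonoidHom.comp_apply, AddMonoidHom.comp_apply, AddMonoidHom.comp_apply, h1, sub_self]
    exact (QZ_zero _).1 h2

section

variable {G A : Type} [CommGroup G] [Finite G] [AddCommGroup A] [DistribMulAction G A]

/-- the homomorphism to `ℚ[G]` with the given coefficient at `1` -/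
def toGQ (κ : A →+ ℚ) : A →+ MonoidAlgebra ℚ G :=
  letI := Fintype.ofFinite G
  { toFun := fun a => ∑ γ : G, MonoidAlgebra.single γ (κ (γ⁻¹ • a))
    map_zero' := by simp
    map_add' := fun a b => by
      rw [← Finset.sum_add_distrib]
      refine Finset.sum_congr rfl fun γ _ => ?_
      rw [smul_add, map_add, MonoidAlgebra.single_add] }

theorem coeff_toGQ (κ : A →+ ℚ) (a : A) (g : G) :
    (toGQ (G := G) κ a).coeff g = κ (g⁻¹ • a) := by
  classical
  letI := Fintype.ofFinite G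
  change (∑ γ : G, MonoidAlgebra.single γ (κ (γ⁻¹ • a)) : MonoidAlgebra ℚ G).coeff g = _
  rw [MonoidAlgebra.coeff_sum, Finsupp.finsetSum_apply]
  rw [Finset.sum_eq_single g]
  · simp
  · intro b _ hb
    rw [MonoidAlgebra.coeff_single, Finsupp.single_apply, if_neg hb]
  · intro h
    exact absurd (Finset.mem_univ g) h

theorem toGQ_smul (κ : A →+ ℚ) (γ : G) (a : A) :
    toGQ (G := G) κ (γ • a) = MonoidAlgebra.single γ 1 * toGQ κ a := by
  ext g
  rw [MonoidAlgebra.coeff_single_mul_apply, coeff_toGQ, coeff_toGQ, one_mul, smul_smul, mul_inv_rev,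
    inv_inv, mul_comm]

/-- the coefficients of an equivariant homomorphism -/
theorem coeff_equiv (f : A →+ MonoidAlgebra ℚ G)
    (hf : ∀ (γ : G) (a : A), f (γ • a) = MonoidAlgebra.single γ 1 * f a) (a : A) (g : G) :
    (f a).coeff g = (f (g⁻¹ • a)).coeff 1 := by
  rw [hf, MonoidAlgebra.coeff_single_mul_apply, one_mul, inv_inv, mul_one]

/-- the coefficient at `1` of a product -/
theorem coeff_mul_one [Fintype G] (n : G → ℤ) (z : MonoidAlgebra ℚ G) :
    (toQ (∑ γ : G, MonoidAlgebra.single γ (n γ)) * z).coeff 1 =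
      ∑ γ : G, (n γ : ℚ) * z.coeff γ⁻¹ := by
  rw [map_sum, Finset.sum_mul, MonoidAlgebra.coeff_sum, Finsupp.finsetSum_apply]
  refine Finset.sum_congr rfl fun γ _ => ?_
  rw [toQ, MonoidAlgebra.mapRingHom_single, MonoidAlgebra.coeff_single_mul_apply, mul_one]
  rfl

end

end Pool.Agent.U360.RS
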