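import Pool.Agent.U360.RS.Frb
import Pool.Agent.K3h30.RS.Dich
import Pool.Agent.K3h66.RS.Mono
import Pool.Agent.K3h23.RS.Tors
import Pool.Agent.K3h36.RS.APPROX0
import Pool.Agent.K3h73.RS.Cheb
import Pool.Agent.K3h3.RS.Uniq
import Pool.Agent.K3h40.RS.SpanReg
import Pool.Agent.K3h40.RS.LogInj

/-!
# Rubin's conjecture depends only on Frobenius classes in one finite extension: the theorems
-/

set_option autoImplicit false
set_option linter.unusedSectionVars false

open NumberField IsDedekindDomain Filter Topology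

noncomputable section

namespace Pool.Agent.U360.RS

open Pool.Agent.K3h30.RS Pool.Agent.K3h43.RS Pool.Agent.K3h8.RS

theorem SameFrob.symm {F L : Type} [Field F] [NumberField F] [Field L] [NumberField L]
    [Algebra F L] {T T' : Finset (HeightOneSpectrum (𝓞 F))} (h : SameFrob L T T') :
    SameFrob L T' T := by
  obtain ⟨e, he⟩ := h
  refine ⟨e.symm, fun t => ?_⟩
  obtain ⟨Φ, h1, h2⟩ := he (e.symm t)
  rw [Equiv.apply_symm_apply] at h2
  exact ⟨Φ, h2, h1⟩

variable {F H G : Type} [Field F] [NumberField F] [Field H] [NumberField H] [Algebra F H]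
  [CommGroup G] [Finite G] [MulSemiringAction G H]

theorem t_UNIQ' : S_UNIQ :=
  Pool.Agent.K3h3.RS.t_UNIQ (Pool.Agent.K3h40.RS.t_SPANREG Pool.Agent.K3h40.RS.t_LOGINJ)

/-- **Rubin's conjecture for `T` depends only on the Frobenius classes in `L` of the elements
of `T`.** -/
theorem frobenian [hG : IsGaloisGroup G F H] (D : RubinData F H G) :
    ∃ (L : Type) (_ : Field L) (_ : NumberField L) (_ : Algebra F L)
      (bad : Finset (HeightOneSpectrum (𝓞 F))), IsGalois F L ∧
      (∀ v, v ∉ bad → D.Allowed {v}) ∧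
      ∀ T T' : Finset (HeightOneSpectrum (𝓞 F)), Disjoint bad T → Disjoint bad T' →
        SameFrob L T T' → (D.Rubin T ↔ D.Rubin T') := by
  classical
  by_cases hS : D.Stark ∅
  · obtain ⟨u₀, e₀, s₀⟩ := hS
    have hfg : AddGroup.FG (Additive (US D)) := fgA Pool.Agent.K3h25.RS.t_OVER D.S
    obtain ⟨w, hw0, hw⟩ := exists_torsion (Additive (US D))
    obtain ⟨N₀, hN₀, hN₀'⟩ := exists_denom_all u₀.c
    obtain ⟨N, hNe⟩ : ∃ N, N = w ^ D.r * N₀ := ⟨_, rfl⟩
    have hN : 0 < N := by rw [hNe]; positivity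
    obtain ⟨Z, hZ1, hZ2⟩ := exists_gen D
    obtain ⟨L, i1, i2, i3, i4, i5, hgal, ⟨ζ, hζ⟩, hroot⟩ := exists_field' F H N hN Z
    have hfin1 : {v : HeightOneSpectrum (𝓞 F) | v.valuation F ((w * N : ℕ) : F) < 1}.Finite :=
      Pool.Agent.K3h43.RS.finite_lt (H := F) ((w * N : ℕ) : F)
        (Nat.cast_ne_zero.2 (Nat.mul_pos hw0 hN).ne')
    have hfin2 := finite_small F (Module.finrank ℚ F + 1)
    refine ⟨L, i1, i2, i4, D.S ∪ hfin1.toFinset ∪ hfin2.toFinset, hgal, ?_, ?_⟩
    · intro v hv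
      simp only [Finset.mem_union, not_or, Set.Finite.mem_toFinset, Set.mem_ofPred_eq,
        not_le] at hv
      exact ⟨Finset.disjoint_singleton_right.2 hv.1.1,
        Or.inr ⟨v, Finset.mem_singleton_self v, hv.2⟩⟩
    · have hval : ∀ v : HeightOneSpectrum (𝓞 F),
          v ∉ D.S ∪ hfin1.toFinset ∪ hfin2.toFinset →
          v ∉ D.S ∧ v.valuation F ((w * N : ℕ) : F) = 1 := by
        intro v hv
        simp only [Finset.mem_union, not_or, Set.Finite.mem_toFinset, Set.mem_ofPred_eq,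
          not_lt] at hv
        refine ⟨hv.1.1, le_antisymm ?_ hv.1.2⟩
        have e : (((w * N : ℕ) : 𝓞 F) : F) = ((w * N : ℕ) : F) :=
          map_natCast (algebraMap (𝓞 F) F) (w * N)
        rw [← e]
        exact v.valuation_le_one (K := F) ((w * N : ℕ) : 𝓞 F)
      have key : ∀ T T' : Finset (HeightOneSpectrum (𝓞 F)),
          Disjoint (D.S ∪ hfin1.toFinset ∪ hfin2.toFinset) T →
          Disjoint (D.S ∪ hfin1.toFinset ∪ hfin2.toFinset) T' →
          SameFrob L T T' → D.Rubin T → D.Rubin T' := by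
        intro T T' hT hT' hsame h
        obtain ⟨e, he⟩ := hsame
        let τ : HeightOneSpectrum (𝓞 F) → HeightOneSpectrum (𝓞 F) := fun v =>
          if hv : v ∈ T then (e ⟨v, hv⟩ : HeightOneSpectrum (𝓞 F)) else v
        have hτ : ∀ t : T, τ (t : HeightOneSpectrum (𝓞 F)) = e t := by
          intro t
          change (if hv : (t : HeightOneSpectrum (𝓞 F)) ∈ T then _ else _) = _
          rw [dif_pos t.2]
        have hinj : Set.InjOn τ T := by
          intro x hx y hy hxy
          have h1 := hτ ⟨x, Finset.mem_coe.1 hx⟩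
          have h2 := hτ ⟨y, Finset.mem_coe.1 hy⟩
          have h3 : (e ⟨x, Finset.mem_coe.1 hx⟩ : HeightOneSpectrum (𝓞 F)) =
              e ⟨y, Finset.mem_coe.1 hy⟩ := by rw [← h1, ← h2]; exact hxy
          have h4 := e.injective (Subtype.ext h3)
          exact congrArg Subtype.val h4
        have himg : T.image τ = T' := by
          ext v
          rw [Finset.mem_image]
          constructor
          · rintro ⟨t, ht, rfl⟩
            rw [hτ ⟨t, ht⟩]
            exact (e ⟨t, ht⟩).2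
          · intro hv
            obtain ⟨t, ht⟩ := e.surjective ⟨v, hv⟩
            exact ⟨t, t.2, by rw [hτ t, ht]⟩
        have h1 : IntAt D (U_le D ∅) u₀ T :=
          intAt_of_rubin t_UNIQ' D (U_le D ∅) u₀ e₀ s₀ T h
        have h2 : IntAt D (U_le D ∅) u₀ (T.image τ) := by
          refine intAt_transfer D (L := L) N w N₀ hNe hN₀ hw0 (U_le D ∅) u₀ hN₀' hw
            (fun x hx => hroot x (hZ2 x hx)) ζ hζ T τ hinj (fun t ht => ?_) h1
          have g1 := hval t fun hh => (Finset.disjoint_left.1 hT hh) ht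
          have g2 := hval (τ t) fun hh => (Finset.disjoint_left.1 hT' hh) (by
            rw [← himg]; exact Finset.mem_image_of_mem τ ht)
          obtain ⟨Φ, g3, g4⟩ := he ⟨t, ht⟩
          refine ⟨g1.1, g2.1, g1.2, g2.2, Φ, g3, ?_⟩
          rw [hτ ⟨t, ht⟩]
          exact g4
        rw [himg] at h2
        refine rubin_of_intAt D u₀ e₀ s₀ T' ?_ h2
        rw [Finset.disjoint_left] at hT' ⊢
        intro v hv
        exact hT' (Finset.mem_union_left _ (Finset.mem_union_left _ hv))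
      intro T T' hT hT' hsame
      exact ⟨key T T' hT hT' hsame, key T' T hT' hT hsame.symm⟩
  · have hno : ∀ T, Disjoint D.S T → ¬ D.Rubin T := by
      rintro T hT ⟨u, e, -, s⟩
      exact hS (stark_all D ⟨u, e, s⟩ ∅ (Finset.disjoint_empty_right _))
    have hfin2 := finite_small F (Module.finrank ℚ F + 1)
    refine ⟨F, inferInstance, inferInstance, inferInstance, D.S ∪ hfin2.toFinset, inferInstance,
      ?_, ?_⟩
    · intro v hv
      simp only [Finset.mem_union, not_or, Set.Finite.mem_toFinset, Set.mem_ofPred_eq,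
        not_le] at hv
      exact ⟨Finset.disjoint_singleton_right.2 hv.1,
        Or.inr ⟨v, Finset.mem_singleton_self v, hv.2⟩⟩
    · intro T T' hT hT' _
      have h1 : Disjoint D.S T := by
        rw [Finset.disjoint_left] at hT ⊢
        exact fun v hv => hT (Finset.mem_union_left _ hv)
      have h2 : Disjoint D.S T' := by
        rw [Finset.disjoint_left] at hT' ⊢
        exact fun v hv => hT' (Finset.mem_union_left _ hv)
      exact ⟨fun h => absurd h (hno T h1), fun h => absurd h (hno T' h2)⟩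

theorem dich [hG : IsGaloisGroup G F H] (D : RubinData F H G) :
    (∀ T, D.Allowed T → D.Rubin T) ∨ PosProportion (fun v => D.Allowed {v} ∧ ¬ D.Rubin {v}) :=
  dichotomy t_UNIQ' Pool.Agent.K3h66.RS.t_MONO (Pool.Agent.K3h23.RS.t_TORS
    Pool.Agent.K3h36.RS.t_NOZETA) Pool.Agent.K3h23.RS.t_FROBUNIQ
    (Pool.Agent.K3h8.RS.t_APPROX Pool.Agent.K3h73.RS.t_CHEB)
    (Pool.Agent.K3h36.RS.t_APPROX0 Pool.Agent.K3h73.RS.t_CHEB) Pool.Agent.K3h36.RS.t_NOZETA
    (Pool.Agent.K3h36.RS.t_PP Pool.Agent.K3h73.RS.t_CHEB) D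

theorem sameFrob_singleton {F L : Type} [Field F] [NumberField F] [Field L] [NumberField L]
    [Algebra F L] {v v' : HeightOneSpectrum (𝓞 F)} {Φ : L ≃ₐ[F] L} (h : HasFrob Φ v)
    (h' : HasFrob Φ v') : SameFrob L {v} {v'} := by
  classical
  refine ⟨{ toFun := fun _ => ⟨v', Finset.mem_singleton_self v'⟩
            invFun := fun _ => ⟨v, Finset.mem_singleton_self v⟩
            left_inv := fun t => ?_
            right_inv := fun t => ?_ }, fun t => ⟨Φ, ?_, h'⟩⟩
  · exact Subtype.ext (Finset.mem_singleton.1 t.2).symm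
  · exact Subtype.ext (Finset.mem_singleton.1 t.2).symm
  · rw [Finset.mem_singleton.1 t.2]
    exact h

/-- every prime ideal has a Frobenius automorphism -/
theorem exists_hasFrob (F L : Type) [Field F] [NumberField F] [Field L] [NumberField L]
    [Algebra F L] [IsGalois F L] (v : HeightOneSpectrum (𝓞 F)) :
    ∃ Φ : L ≃ₐ[F] L, HasFrob Φ v := by
  obtain ⟨P, hP⟩ := (Pool.Agent.K3h25.RS.t_OVER F L v).1
  have hP' := hP
  rw [above_singleton] at hP'
  obtain ⟨Φ, hΦ⟩ := exists_frob F L v P hP'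
  exact ⟨Φ, P, hP, hΦ⟩

/-- every automorphism is the Frobenius automorphism of a prime ideal outside a finite set -/
theorem exists_prime (F L : Type) [Field F] [NumberField F] [Field L] [NumberField L]
    [Algebra F L] (Φ : L ≃ₐ[F] L) (bad : Finset (HeightOneSpectrum (𝓞 F))) :
    ∃ v, v ∉ bad ∧ HasFrob Φ v := by
  obtain ⟨c, hc, hX⟩ := Pool.Agent.K3h73.RS.t_CHEB F L Φ bad
  have h1 : ∀ᶠ X : ℕ in atTop, (1 : ℝ) ≤ (Nat.primeCounting X : ℝ) :=
    (tendsto_natCast_atTop_atTop.comp Nat.tendsto_primeCounting).eventually_ge_atTop _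
  obtain ⟨X, hX, h1⟩ := (hX.and h1).exists
  by_contra hcon
  push Not at hcon
  have h2 : IsEmpty {v : HeightOneSpectrum (𝓞 F) // (v ∉ bad ∧
      ∃ P : HeightOneSpectrum (𝓞 L), Above {v} P ∧
        ∀ x : 𝓞 L, P.valuation L (Φ (x : L) - (x : L) ^ (Ideal.absNorm v.asIdeal)) < 1) ∧
      Ideal.absNorm v.asIdeal ≤ X} := ⟨fun v => hcon v.1 v.2.1.1 v.2.1.2⟩
  rw [Nat.card_of_isEmpty, Nat.cast_zero] at hX
  nlinarith

/-- a set of positive proportion is not contained in a finite set -/
theorem posProportion_exists {F : Type} [Field F] [NumberField F]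
    {P : HeightOneSpectrum (𝓞 F) → Prop} (hP : PosProportion P)
    (bad : Finset (HeightOneSpectrum (𝓞 F))) : ∃ v, P v ∧ v ∉ bad := by
  obtain ⟨c, hc, hX⟩ := posProportion_diff hP bad
  have h1 : ∀ᶠ X : ℕ in atTop, (1 : ℝ) ≤ (Nat.primeCounting X : ℝ) :=
    (tendsto_natCast_atTop_atTop.comp Nat.tendsto_primeCounting).eventually_ge_atTop _
  obtain ⟨X, hX, h1⟩ := (hX.and h1).exists
  by_contra hcon
  push Not at hcon
  have h2 : IsEmpty {v : HeightOneSpectrum (𝓞 F) // (P v ∧ v ∉ bad) ∧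
      Ideal.absNorm v.asIdeal ≤ X} := ⟨fun v => v.2.1.2 (hcon v.1 v.2.1.1)⟩
  rw [Nat.card_of_isEmpty, Nat.cast_zero] at hX
  nlinarith

/-- **Finitely many one-element sets suffice.** -/
theorem finite_test [hG : IsGaloisGroup G F H] (D : RubinData F H G)
    (E : Finset (HeightOneSpectrum (𝓞 F))) :
    ∃ V : Finset (HeightOneSpectrum (𝓞 F)), Disjoint E V ∧ (∀ v ∈ V, D.Allowed {v}) ∧
      ((∀ v ∈ V, D.Rubin {v}) → ∀ T, D.Allowed T → D.Rubin T) := by
  classical
  obtain ⟨L, i1, i2, i3, bad, hgal, hbad, hL⟩ := frobenian D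
  choose v hv hv' using fun Φ : L ≃ₐ[F] L => exists_prime F L Φ (bad ∪ E)
  refine ⟨Finset.univ.image v, ?_, ?_, ?_⟩
  · rw [Finset.disjoint_left]
    rintro x hx hx'
    obtain ⟨Φ, -, rfl⟩ := Finset.mem_image.1 hx'
    exact hv Φ (Finset.mem_union_right _ hx)
  · rintro x hx
    obtain ⟨Φ, -, rfl⟩ := Finset.mem_image.1 hx
    exact hbad _ fun h => hv Φ (Finset.mem_union_left _ h)
  · intro h
    rcases dich D with h1 | h1
    · exact h1
    · exfalso
      obtain ⟨x, ⟨-, hx⟩, hxb⟩ := posProportion_exists h1 bad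
      obtain ⟨Φ, hΦ⟩ := exists_hasFrob F L x
      apply hx
      rw [hL {x} {v Φ} (Finset.disjoint_singleton_right.2 hxb)
        (Finset.disjoint_singleton_right.2 fun h => hv Φ (Finset.mem_union_left _ h))
        (sameFrob_singleton hΦ (hv' Φ))]
      exact h _ (Finset.mem_image_of_mem v (Finset.mem_univ Φ))

end Pool.Agent.U360.RS
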