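import Pool.Agent.U360.RS.Defs
import Pool.Agent.K3h8.RS.Approx
import Pool.Agent.K3h30.RS.Dich

/-!
# Comparison of two prime ideals with the same Frobenius class in a large field
-/

set_option autoImplicit false
set_option linter.unusedSectionVars false

open NumberField IsDedekindDomain Polynomial

noncomputable section

namespace Pool.Agent.U360.RS

open Pool.Agent.K3h30.RS Pool.Agent.K3h43.RS Pool.Agent.K3h8.RS

/-- the large field -/
theorem exists_field (F H G : Type) [Field F] [NumberField F] [Field H] [NumberField H]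
    [Algebra F H] [CommGroup G] [Finite G] [MulSemiringAction G H] (prs : Finset ℕ)
    (hprs : ∀ l ∈ prs, l.Prime) (B : ℕ) (Z : Finset Hˣ) :
    ∃ (L : Type) (_ : Field L) (_ : NumberField L) (_ : Algebra H L) (_ : Algebra F L)
      (_ : IsScalarTower F H L), IsGalois F L ∧ (∀ l ∈ prs, ∃ ζ : Lˣ, orderOf ζ = l ^ B) ∧
      ∀ l ∈ prs, ∀ x ∈ Subgroup.closure (Z : Set Hˣ), ∀ γ' : G, ∃ y : Lˣ,
        y ^ (l ^ B) = Units.map (algebraMap H L : H →* L) (act γ' x) := by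
  classical
  letI := Fintype.ofFinite G
  let g0 : ℕ → H[X] := fun l => (X ^ (l ^ B) - C 1) *
    ∏ z ∈ Z, ∏ γ' : G, (X ^ (l ^ B) - C (γ' • (z : H)))
  let f0 : H[X] := ∏ l ∈ prs, g0 l
  have hg0 : ∀ l ∈ prs, g0 l ≠ 0 := by
    intro l hl
    have hlB : 0 < l ^ B := pow_pos (hprs l hl).pos B
    refine mul_ne_zero (X_pow_sub_C_ne_zero hlB _) (Finset.prod_ne_zero_iff.mpr fun z _ =>
      Finset.prod_ne_zero_iff.mpr fun γ' _ => X_pow_sub_C_ne_zero hlB _)
  have hf0 : f0 ≠ 0 := Finset.prod_ne_zero_iff.mpr hg0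
  obtain ⟨L, i1, i2, i3, i4, i5, hgal, hL⟩ := exists_gal F H f0
  have hroot : ∀ g : H[X], g ∣ f0 → (g.map (algebraMap H L)).Splits := by
    intro g hg
    exact Splits.of_dvd hL (Polynomial.map_ne_zero hf0) (Polynomial.map_dvd _ hg)
  refine ⟨L, i1, i2, i3, i4, i5, hgal, ?_, ?_⟩
  · intro l hl
    have hlB : 0 < l ^ B := pow_pos (hprs l hl).pos B
    have h1 : cyclotomic (l ^ B) H ∣ f0 := by
      have h0 : g0 l ∣ f0 := Finset.dvd_prod_of_mem g0 hl
      refine dvd_trans (Dvd.dvd.mul_right ?_ _) h0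
      rw [map_one]
      exact cyclotomic.dvd_X_pow_sub_one (l ^ B) H
    have h2 := hroot _ h1
    rw [map_cyclotomic] at h2
    obtain ⟨ζ, hζ⟩ := h2.exists_eval_eq_zero (degree_cyclotomic_pos (l ^ B) L hlB).ne'
    have h3 : IsPrimitiveRoot ζ (l ^ B) := (isRoot_cyclotomic_iff_charZero hlB).mp hζ
    have h4 := h3.isUnit_unit hlB.ne'
    exact ⟨_, h4.eq_orderOf.symm⟩
  · intro l hl x hx
    have hlB : 0 < l ^ B := pow_pos (hprs l hl).pos B
    induction hx using Subgroup.closure_induction with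
    | mem z hz =>
      intro γ'
      have h1 : (X ^ (l ^ B) - C (γ' • (z : H))) ∣ f0 := by
        have h0 : g0 l ∣ f0 := Finset.dvd_prod_of_mem g0 hl
        refine dvd_trans (Dvd.dvd.mul_left ?_ _) h0
        exact (Finset.dvd_prod_of_mem (fun γ' : G => (X ^ (l ^ B) - C (γ' • (z : H))))
          (Finset.mem_univ γ')).trans (Finset.dvd_prod_of_mem
            (fun z : Hˣ => ∏ γ' : G, (X ^ (l ^ B) - C (γ' • (z : H)))) hz)
      have h2 := hroot _ h1
      rw [Polynomial.map_sub, Polynomial.map_pow, map_X, map_C] at h2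
      obtain ⟨α, hα⟩ := h2.exists_eval_eq_zero (by
        rw [degree_X_pow_sub_C hlB]
        exact_mod_cast hlB.ne')
      rw [eval_sub, eval_pow, eval_X, eval_C, sub_eq_zero] at hα
      have hα0 : α ≠ 0 := by
        rintro rfl
        rw [zero_pow hlB.ne'] at hα
        have h3 : algebraMap H L ((act γ' z : Hˣ) : H) = 0 := hα.symm
        exact (act γ' z).ne_zero ((map_eq_zero _).mp h3)
      refine ⟨Units.mk0 α hα0, ?_⟩
      apply Units.ext
      rw [Units.val_pow_eq_pow_val, Units.val_mk0]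
      exact hα
    | one =>
      intro γ'
      refine ⟨1, ?_⟩
      have : act γ' (1 : Hˣ) = 1 := map_one _
      rw [one_pow, this, map_one]
    | mul x y _ _ hx hy =>
      intro γ'
      obtain ⟨u, hu⟩ := hx γ'
      obtain ⟨u', hu'⟩ := hy γ'
      refine ⟨u * u', ?_⟩
      have : act γ' (x * y) = act γ' x * act γ' y := map_mul _ _ _
      rw [mul_pow, this, map_mul, hu, hu']
    | inv x _ hx =>
      intro γ'
      obtain ⟨u, hu⟩ := hx γ'
      refine ⟨u⁻¹, ?_⟩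
      have : act γ' (x⁻¹) = (act γ' x)⁻¹ := map_inv _ _
      rw [inv_pow, this, map_inv, hu]

variable {F H G : Type} [Field F] [NumberField F] [Field H] [NumberField H] [Algebra F H]
  [CommGroup G] [Finite G] [MulSemiringAction G H]

/-- the prime ideals at a prime ideal with Frobenius `Φ`, and the restriction of `Φ` -/
theorem frob_data [IsGaloisGroup G F H] (D : RubinData F H G) {L : Type} [Field L] [NumberField L]
    [Algebra H L] [Algebra F L] [IsScalarTower F H L] (Φ : L ≃ₐ[F] L)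
    (v : HeightOneSpectrum (𝓞 F)) (hvS : v ∉ D.S) (hΦ : HasFrob Φ v) :
    ∃ (P : HeightOneSpectrum (𝓞 L)) (w : HeightOneSpectrum (𝓞 H)),
      P.asIdeal.comap (algebraMap (𝓞 H) (𝓞 L)) = w.asIdeal ∧
      w.asIdeal.comap (algebraMap (𝓞 F) (𝓞 H)) = v.asIdeal ∧
      P.asIdeal.comap (algebraMap (𝓞 F) (𝓞 L)) = v.asIdeal ∧
      (∀ x : 𝓞 L, P.valuation L (Φ (x : L) - (x : L) ^ (Ideal.absNorm v.asIdeal)) < 1) ∧
      ∀ x : H, Φ (algebraMap H L x) = algebraMap H L (D.σ v • x) := by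
  obtain ⟨P, hPv, hΦv⟩ := hΦ
  rw [above_singleton] at hPv
  obtain ⟨w, hPw, hw⟩ := exists_under F H L v P hPv
  refine ⟨P, w, hPw, hw, hPv, hΦv, fun x => ?_⟩
  exact restrict v w hw (D.unramified v hvS) P hPw Φ hΦv (D.σ v) (D.frob v hvS w ⟨v, rfl, hw⟩) x

theorem unit_at (D : RubinData F H G) (v : HeightOneSpectrum (𝓞 F)) (hvS : v ∉ D.S) {x : Hˣ}
    (hx : x ∈ US D) (w : HeightOneSpectrum (𝓞 H)) (hw : Above {v} w) : w.valuation H (x : H) = 1 := by
  refine hx.1 w ?_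
  rw [above_iff hw]
  exact fun h => hvS (Finset.mem_coe.1 h)

/-- **Comparison.** -/
theorem compare [IsGaloisGroup G F H] (D : RubinData F H G) {L : Type} [Field L] [NumberField L]
    [Algebra H L] [Algebra F L] [IsScalarTower F H L] (l B : ℕ) (hl : l.Prime) (ζ : Lˣ)
    (hζ : orderOf ζ = l ^ B)
    (hroot : ∀ x ∈ US D, ∀ γ' : G, ∃ y : Lˣ,
      y ^ (l ^ B) = Units.map (algebraMap H L : H →* L) (act γ' x))
    (Φ : L ≃ₐ[F] L) (v v' : HeightOneSpectrum (𝓞 F)) (hvS : v ∉ D.S) (hvS' : v' ∉ D.S)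
    (hlv : v.valuation F (l : F) = 1) (hlv' : v'.valuation F (l : F) = 1)
    (hΦ : HasFrob Φ v) (hΦ' : HasFrob Φ v') (a m : ℕ) (ha : a < B) (hm : ¬ l ∣ m)
    (hN : Ideal.absNorm v.asIdeal ^ orderOf (D.σ v) = l ^ a * m + 1) :
    D.σ v' = D.σ v ∧ Ideal.absNorm v'.asIdeal ≡ Ideal.absNorm v.asIdeal [MOD l ^ B] ∧
    (∃ m' : ℕ, ¬ l ∣ m' ∧ Ideal.absNorm v'.asIdeal ^ orderOf (D.σ v') = l ^ a * m' + 1) ∧
    ∀ x ∈ US D, LocTriv (F := F) l v' x ↔ LocTriv (F := F) l v x := by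
  obtain ⟨P, w, hPw, hw, hPv, hΦv, hres⟩ := frob_data D Φ v hvS hΦ
  obtain ⟨P', w', hPw', hw', hPv', hΦv', hres'⟩ := frob_data D Φ v' hvS' hΦ'
  have hfaith : FaithfulSMul G H := IsGaloisGroup.faithful (A := F)
  have hσ : D.σ v' = D.σ v := by
    apply eq_of_smul_eq_smul (α := H)
    intro x
    apply (algebraMap H L).injective
    rw [← hres', ← hres]
  have hlP : P.valuation L (l : L) = 1 := by
    have h1 := val_eq v P hPv _ hlv
    rwa [map_natCast] at h1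
  have hlP' : P'.valuation L (l : L) = 1 := by
    have h1 := val_eq v' P' hPv' _ hlv'
    rwa [map_natCast] at h1
  have hmod : Ideal.absNorm v'.asIdeal ≡ Ideal.absNorm v.asIdeal [MOD l ^ B] := by
    have hζ1 : ζ ^ (l ^ B) = 1 := by rw [← hζ]; exact pow_orderOf_eq_one ζ
    have h1 := frob_zeta v' P' Φ hΦv' l B hlP' ζ hζ1
    have h2 := frob_zeta v P Φ hΦv l B hlP ζ hζ1
    rw [h1] at h2
    rw [← hζ]
    exact pow_eq_pow_iff_modEq.mp h2
  have hla : 0 < l ^ a := pow_pos hl.pos a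
  obtain ⟨m', hm', hvN⟩ : ∃ m' : ℕ, ¬ l ∣ m' ∧
      Ideal.absNorm v'.asIdeal ^ orderOf (D.σ v) = l ^ a * m' + 1 := by
    have hmoda : Ideal.absNorm v'.asIdeal ≡ Ideal.absNorm v.asIdeal [MOD l ^ (a + 1)] :=
      hmod.of_dvd (pow_dvd_pow l ha)
    have h1 : Ideal.absNorm v'.asIdeal ^ orderOf (D.σ v) ≡ l ^ a * m + 1 [MOD l ^ (a + 1)] := by
      rw [← hN]; exact hmoda.pow _
    have h0 : 0 < Ideal.absNorm v'.asIdeal ^ orderOf (D.σ v) := by
      refine pow_pos (Nat.pos_of_ne_zero fun h => ?_) _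
      exact v'.ne_bot (Ideal.absNorm_eq_zero_iff.mp h)
    obtain ⟨k, hk⟩ : ∃ k, Ideal.absNorm v'.asIdeal ^ orderOf (D.σ v) = k + 1 :=
      ⟨_, (Nat.succ_pred_eq_of_pos h0).symm⟩
    rw [hk] at h1
    have h2 : k ≡ l ^ a * m [MOD l ^ (a + 1)] := Nat.ModEq.add_right_cancel' 1 h1
    have h3 : l ^ a ∣ k := by
      have h4 : k ≡ l ^ a * m [MOD l ^ a] := h2.of_dvd (pow_dvd_pow l (Nat.le_succ a))
      exact (h4.dvd_iff dvd_rfl).mpr (dvd_mul_right _ _)
    obtain ⟨m', rfl⟩ := h3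
    refine ⟨m', ?_, hk⟩
    have h5 : m' ≡ m [MOD l] := by
      rw [pow_succ] at h2
      exact Nat.ModEq.mul_left_cancel' hla.ne' h2
    intro h6
    exact hm ((h5.dvd_iff dvd_rfl).mp h6)
  refine ⟨hσ, hmod, ⟨m', hm', by rw [hσ]; exact hvN⟩, ?_⟩
  intro x hx
  have hx1 : ∀ γ' : G, ∃ y : Lˣ, y ^ (l ^ a) =
      Units.map (algebraMap H L : H →* L) (act γ' x) := by
    intro γ'
    obtain ⟨y, hy⟩ := hroot x hx γ'
    refine ⟨y ^ (l ^ (B - a)), ?_⟩
    rw [← pow_mul, ← pow_add, Nat.sub_add_cancel ha.le]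
    exact hy
  choose y hy using hx1
  rw [hσ] at hres'
  rw [loc v' P' w' hw' hPw' Φ hΦv' (D.σ v) hres' l a m' hl hlP' hm' hvN x
      (unit_at D v' hvS' hx) y hy,
    loc v P w hw hPw Φ hΦv (D.σ v) hres l a m hl hlP hm hN x (unit_at D v hvS hx) y hy]

end Pool.Agent.U360.RS
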