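import Pool.Agent.U360.RS.Alg
import Pool.Agent.K3h30.RS.Good

/-!
# Transfer of integral homomorphisms
-/

set_option autoImplicit false
set_option linter.unusedSectionVars false

noncomputable section

namespace Pool.Agent.U360.RS

open Pool.Agent.K3h30.RS

variable {G A : Type} [CommGroup G] [Finite G] [AddCommGroup A] [DistribMulAction G A]

/-- the pairs of integral elements which are congruent modulo `N` -/
def pairRing (G : Type) [CommGroup G] [Finite G] (N : ℕ) :
    Subring (MonoidAlgebra ℚ G × MonoidAlgebra ℚ G) where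
  carrier := {p | p.1 ∈ (toQ (G := G)).range ∧ p.2 ∈ (toQ (G := G)).range ∧
    ∃ z ∈ (toQ (G := G)).range, p.1 - p.2 = (N : MonoidAlgebra ℚ G) * z}
  mul_mem' := by
    rintro ⟨a, b⟩ ⟨c, d⟩ ⟨h1, h2, z, hz, h3⟩ ⟨h4, h5, z', hz', h6⟩
    refine ⟨mul_mem h1 h4, mul_mem h2 h5, z * c + b * z', add_mem (mul_mem hz h4)
      (mul_mem h2 hz'), ?_⟩
    change a * c - b * d = _
    change a - b = _ at h3
    change c - d = _ at h6
    have e : a * c - b * d = (a - b) * c + b * (c - d) := by ring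
    rw [e, h3, h6]
    ring
  one_mem' := ⟨one_mem _, one_mem _, 0, zero_mem _, by simp⟩
  add_mem' := by
    rintro ⟨a, b⟩ ⟨c, d⟩ ⟨h1, h2, z, hz, h3⟩ ⟨h4, h5, z', hz', h6⟩
    refine ⟨add_mem h1 h4, add_mem h2 h5, z + z', add_mem hz hz', ?_⟩
    change (a + c) - (b + d) = _
    change a - b = _ at h3
    change c - d = _ at h6
    have e : (a + c) - (b + d) = (a - b) + (c - d) := by ring
    rw [e, h3, h6]
    ring
  zero_mem' := ⟨zero_mem _, zero_mem _, 0, zero_mem _, by simp⟩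
  neg_mem' := by
    rintro ⟨a, b⟩ ⟨h1, h2, z, hz, h3⟩
    refine ⟨neg_mem h1, neg_mem h2, -z, neg_mem hz, ?_⟩
    change -a - -b = _
    change a - b = _ at h3
    have e : -a - -b = -(a - b) := by ring
    rw [e, h3]
    ring

theorem mem_pairRing (N : ℕ) (a b : MonoidAlgebra ℚ G) : (a, b) ∈ pairRing G N ↔
    a ∈ (toQ (G := G)).range ∧ b ∈ (toQ (G := G)).range ∧
    ∃ z ∈ (toQ (G := G)).range, a - b = (N : MonoidAlgebra ℚ G) * z := Iff.rfl

theorem diag_mem (N : ℕ) {a : MonoidAlgebra ℚ G} (h : a ∈ (toQ (G := G)).range) :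
    (a, a) ∈ pairRing G N := ⟨h, h, 0, zero_mem _, by simp⟩

/-- congruences modulo `N` by coefficients -/
theorem cong_of_coeff (N : ℕ) (x : MonoidAlgebra ℚ G) (h : ∀ γ, ∃ z : ℤ, x.coeff γ = N * z) :
    ∃ z ∈ (toQ (G := G)).range, x = (N : MonoidAlgebra ℚ G) * z := by
  choose n hn using h
  refine ⟨toQ (MonoidAlgebra.ofCoeff (Finsupp.equivFunOnFinite.symm n)), ⟨_, rfl⟩, ?_⟩
  ext γ
  rw [hn, nat_smul_eq, coeff_toQ]
  rfl

/-- `δ Λ` is integral -/
theorem delta_toGQ (w q : ℕ) (σ : G) (χ : A →+ QZ) (lam : A →+ ℚ)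
    (hσ : ∀ a, χ (σ • a) = q • χ a) (hlam : ∀ a, ((lam a : ℚ) : QZ) = w • χ a) (a : A) :
    (1 - MonoidAlgebra.single σ⁻¹ (q : ℚ)) * toGQ (G := G) lam a ∈ (toQ (G := G)).range := by
  rw [mem_range_toQ]
  intro γ
  rw [coeff_delta_mul, ← QZ_zero, coeff_toGQ, coeff_toGQ, AddCircle.coe_sub, ← nsmul_eq_mul,
    AddCircle.coe_nsmul, hlam, hlam]
  have h1 : γ⁻¹ • a = σ • ((σ * γ)⁻¹ • a) := by
    rw [smul_smul]
    congr 1
    rw [mul_inv, mul_inv_cancel_left]
  rw [h1, hσ, smul_comm, sub_self]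

/-- the difference of the `δ Λ` is divisible by `N` -/
theorem delta_toGQ_sub (N q q' : ℕ) (σ : G) (lam lam' : A →+ ℚ)
    (hE : ∀ a, ∃ z : ℤ, (lam a - q * lam (σ⁻¹ • a)) - (lam' a - q' * lam' (σ⁻¹ • a)) = N * z)
    (a : A) : ∃ z ∈ (toQ (G := G)).range,
      (1 - MonoidAlgebra.single σ⁻¹ (q : ℚ)) * toGQ (G := G) lam a -
      (1 - MonoidAlgebra.single σ⁻¹ (q' : ℚ)) * toGQ (G := G) lam' a =
        (N : MonoidAlgebra ℚ G) * z := by
  refine cong_of_coeff N _ fun γ => ?_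
  rw [MonoidAlgebra.coeff_sub, Finsupp.sub_apply, coeff_delta_mul, coeff_delta_mul, coeff_toGQ,
    coeff_toGQ, coeff_toGQ, coeff_toGQ, mul_inv, mul_smul]
  exact hE _

/-- **Transfer.** -/
theorem transfer {I : Type} [Fintype I] [DecidableEq I] [hI : Nonempty I]
    (w N m : ℕ) (hm : 0 < m) (q q' : I → ℕ) (σ : I → G)
    (χ χ' : I → A →+ QZ) (hχm' : ∀ t a, m • χ' t a = 0)
    (hσ : ∀ t a, χ t (σ t • a) = q t • χ t a) (hσ' : ∀ t a, χ' t (σ t • a) = q' t • χ' t a)
    (lam lam' kap : I → A →+ ℚ)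
    (hlam : ∀ t a, ((lam t a : ℚ) : QZ) = w • χ t a)
    (hlam' : ∀ t a, ((lam' t a : ℚ) : QZ) = w • χ' t a)
    (hkap : ∀ t a, lam t a = lam' t a + w * kap t a)
    (hkap' : ∀ t a, ((kap t a : ℚ) : QZ) = χ t a - χ' t a)
    (hE : ∀ t a, ∃ z : ℤ, (lam t a - q t * lam t ((σ t)⁻¹ • a)) -
      (lam' t a - q' t * lam' t ((σ t)⁻¹ • a)) = N * z)
    (hq : ∀ t, ∃ z : ℤ, (q t : ℤ) - q' t = N * z)
    {r : ℕ} (f' : Fin r → A →+ MonoidAlgebra ℚ G)
    (hf' : ∀ i (γ : G) (a : A), f' i (γ • a) = MonoidAlgebra.single γ 1 * f' i a)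
    (hint' : ∀ i a, (∀ t (γ : G), χ' t (γ • a) = 0) → f' i a ∈ (toQ (G := G)).range) :
    ∃ f : Fin r → A →+ MonoidAlgebra ℚ G,
      (∀ i (γ : G) (a : A), f i (γ • a) = MonoidAlgebra.single γ 1 * f i a) ∧
      (∀ i a, (∀ t (γ : G), χ t (γ • a) = 0) → f i a ∈ (toQ (G := G)).range) ∧
      ∀ x : Fin r → A, ∃ z ∈ (toQ (G := G)).range,
        (w : MonoidAlgebra ℚ G) ^ r *
          ((∏ t, (1 - MonoidAlgebra.single (σ t)⁻¹ (q' t : ℚ))) *
            Matrix.det (Matrix.of fun i j => f' i (x j)) -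
          (∏ t, (1 - MonoidAlgebra.single (σ t)⁻¹ (q t : ℚ))) *
            Matrix.det (Matrix.of fun i j => f i (x j))) = (N : MonoidAlgebra ℚ G) * z := by
  classical
  letI := Fintype.ofFinite G
  -- the combination of characters
  have hcomb : ∀ i : Fin r, ∃ n : I × G → ℤ, ∀ a,
      (((f' i a).coeff 1 : ℚ) : QZ) = ∑ j : I × G, n j • χ' j.1 (j.2 • a) := by
    intro i
    let φ : A →+ ℚ :=
      { toFun := fun a => (f' i a).coeff 1
        map_zero' := by simp
        map_add' := fun a b => by simp }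
    obtain ⟨n, hn⟩ := Pool.Agent.K3h12.RSE.comb (J := I × G) m hm
      (fun j => (χ' j.1).comp (DistribSMul.toAddMonoidHom A j.2))
      (fun j a => hχm' j.1 _) ((QuotientAddGroup.mk' _).comp φ) (by
        intro a ha
        have h1 := hint' i a fun t γ => ha (t, γ)
        rw [mem_range_toQ] at h1
        change (((f' i a).coeff 1 : ℚ) : QZ) = 0
        rw [QZ_zero]
        exact h1 1)
    exact ⟨n, hn⟩
  choose n hn using hcomb
  let c : Fin r → I → MonoidAlgebra ℤ G := fun i t => ∑ γ : G, MonoidAlgebra.single γ (n i (t, γ))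
  have hc1 : ∀ i t (κ : A →+ ℚ) a, (toQ (c i t) * toGQ (G := G) κ a).coeff 1 =
      ∑ γ : G, (n i (t, γ) : ℚ) * κ (γ • a) := by
    intro i t κ a
    rw [coeff_mul_one]
    refine Finset.sum_congr rfl fun γ _ => ?_
    rw [coeff_toGQ, inv_inv]
  have hsumQZ : ∀ (i : Fin r) (κ : I → A →+ ℚ) (a : A),
      ((∑ t, ∑ γ : G, (n i (t, γ) : ℚ) * κ t (γ • a) : ℚ) : QZ) =
        ∑ j : I × G, n i j • ((κ j.1 (j.2 • a) : ℚ) : QZ) := by
    intro i κ a
    rw [← Fintype.sum_prod_type (f := fun j : I × G => (n i j : ℚ) * κ j.1 (j.2 • a))]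
    rw [← QuotientAddGroup.mk'_apply, map_sum]
    refine Finset.sum_congr rfl fun j _ => ?_
    rw [← zsmul_eq_mul, map_zsmul]
    rfl
  -- the new functions
  let f : Fin r → A →+ MonoidAlgebra ℚ G := fun i =>
    f' i + ∑ t, (AddMonoidHom.mulLeft (toQ (c i t))).comp (toGQ (G := G) (kap t))
  have hfa : ∀ i a, f i a = f' i a + ∑ t, toQ (c i t) * toGQ (G := G) (kap t) a := by
    intro i a
    change (f' i + ∑ t, (AddMonoidHom.mulLeft (toQ (c i t))).comp (toGQ (G := G) (kap t))) a = _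
    rw [AddMonoidHom.add_apply, AddMonoidHom.finset_sum_apply]
    rfl
  have hf : ∀ i (γ : G) (a : A), f i (γ • a) = MonoidAlgebra.single γ 1 * f i a := by
    intro i γ a
    rw [hfa, hfa, hf', mul_add, Finset.mul_sum]
    congr 1
    refine Finset.sum_congr rfl fun t _ => ?_
    rw [toGQ_smul]
    ring
  refine ⟨f, hf, ?_, ?_⟩
  · -- integrality
    intro i a ha
    rw [mem_range_toQ]
    intro g
    rw [← QZ_zero, coeff_equiv (f i) (hf i) a g]
    have hb : ∀ t (γ : G), χ t (γ • g⁻¹ • a) = 0 := by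
      intro t γ
      rw [smul_smul]
      exact ha t _
    generalize g⁻¹ • a = b at hb
    rw [hfa, MonoidAlgebra.coeff_add, Finsupp.add_apply, MonoidAlgebra.coeff_sum,
      Finsupp.finsetSum_apply, AddCircle.coe_add, hn]
    have h1 : (∑ t, (toQ (c i t) * toGQ (G := G) (kap t) b).coeff 1) =
        ∑ t, ∑ γ : G, (n i (t, γ) : ℚ) * kap t (γ • b) :=
      Finset.sum_congr rfl fun t _ => hc1 i t (kap t) b
    rw [h1, hsumQZ, ← Finset.sum_add_distrib]
    refine Finset.sum_eq_zero fun j _ => ?_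
    rw [← smul_add, hkap', add_sub_cancel, hb, smul_zero]
  · -- the determinants
    intro x
    -- the integral part
    have hY : ∀ i a, (w : MonoidAlgebra ℚ G) * f' i a - ∑ t, toQ (c i t) *
        toGQ (G := G) (lam' t) a ∈ (toQ (G := G)).range := by
      intro i a
      let F : A →+ MonoidAlgebra ℚ G := (AddMonoidHom.mulLeft (w : MonoidAlgebra ℚ G)).comp (f' i) -
        ∑ t, (AddMonoidHom.mulLeft (toQ (c i t))).comp (toGQ (G := G) (lam' t))
      have hF : ∀ a, F a = (w : MonoidAlgebra ℚ G) * f' i a - ∑ t, toQ (c i t) *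
          toGQ (G := G) (lam' t) a := by
        intro a
        change ((AddMonoidHom.mulLeft (w : MonoidAlgebra ℚ G)).comp (f' i) -
          ∑ t, (AddMonoidHom.mulLeft (toQ (c i t))).comp (toGQ (G := G) (lam' t))) a = _
        rw [AddMonoidHom.sub_apply, AddMonoidHom.finset_sum_apply]
        rfl
      have hF' : ∀ (γ : G) a, F (γ • a) = MonoidAlgebra.single γ 1 * F a := by
        intro γ a
        rw [hF, hF, hf', mul_sub, Finset.mul_sum]
        congr 1
        · ring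
        · refine Finset.sum_congr rfl fun t _ => ?_
          rw [toGQ_smul]
          ring
      rw [← hF, mem_range_toQ]
      intro g
      rw [← QZ_zero, coeff_equiv F hF' a g]
      generalize g⁻¹ • a = b
      rw [hF, MonoidAlgebra.coeff_sub, Finsupp.sub_apply, nat_smul_eq, MonoidAlgebra.coeff_sum,
        Finsupp.finsetSum_apply, AddCircle.coe_sub]
      have h1 : (∑ t, (toQ (c i t) * toGQ (G := G) (lam' t) b).coeff 1) =
          ∑ t, ∑ γ : G, (n i (t, γ) : ℚ) * lam' t (γ • b) :=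
        Finset.sum_congr rfl fun t _ => hc1 i t (lam' t) b
      rw [h1, hsumQZ, ← nsmul_eq_mul, AddCircle.coe_nsmul, hn, Finset.smul_sum, sub_eq_zero]
      refine Finset.sum_congr rfl fun j _ => ?_
      rw [hlam', smul_comm]
    have hδ : ∀ t, (1 - MonoidAlgebra.single (σ t)⁻¹ (q t : ℚ),
        1 - MonoidAlgebra.single (σ t)⁻¹ (q' t : ℚ)) ∈ pairRing G N := by
      intro t
      rw [mem_pairRing]
      refine ⟨?_, ?_, ?_⟩
      · refine sub_mem (one_mem _) ⟨MonoidAlgebra.single (σ t)⁻¹ (q t : ℤ), ?_⟩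
        simp [toQ]
      · refine sub_mem (one_mem _) ⟨MonoidAlgebra.single (σ t)⁻¹ (q' t : ℤ), ?_⟩
        simp [toQ]
      · obtain ⟨z, hz⟩ := hq t
        refine ⟨toQ (MonoidAlgebra.single (σ t)⁻¹ (-z)), ⟨_, rfl⟩, ?_⟩
        have h1 : (q t : ℚ) - q' t = N * z := by exact_mod_cast hz
        have h2 : (N : MonoidAlgebra ℚ G) * toQ (MonoidAlgebra.single (σ t)⁻¹ (-z)) =
            MonoidAlgebra.single (σ t)⁻¹ (-((N : ℚ) * z)) := by
          have : toQ (MonoidAlgebra.single (σ t)⁻¹ (-z)) =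
              MonoidAlgebra.single (σ t)⁻¹ (-z : ℚ) := by simp [toQ]
          rw [this, ← nsmul_eq_mul, MonoidAlgebra.smul_single, nsmul_eq_mul]
          congr 1
          ring
        rw [h2, ← h1, sub_sub_sub_cancel_left, ← MonoidAlgebra.single_sub]
        congr 1
        ring
    have hδΛ : ∀ t j, ((1 - MonoidAlgebra.single (σ t)⁻¹ (q t : ℚ)) * toGQ (G := G) (lam t) (x j),
        (1 - MonoidAlgebra.single (σ t)⁻¹ (q' t : ℚ)) * toGQ (G := G) (lam' t) (x j)) ∈
        pairRing G N := by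
      intro t j
      rw [mem_pairRing]
      exact ⟨delta_toGQ w (q t) (σ t) (χ t) (lam t) (hσ t) (hlam t) (x j),
        delta_toGQ w (q' t) (σ t) (χ' t) (lam' t) (hσ' t) (hlam' t) (x j),
        delta_toGQ_sub N (q t) (q' t) (σ t) (lam t) (lam' t) (hE t) (x j)⟩
    obtain ⟨v⟩ := hI
    have hdet := Pool.Agent.K3h24.RS.Det.t_DET (MonoidAlgebra ℚ G × MonoidAlgebra ℚ G) I
      (pairRing G N) Finset.univ
      (fun t => (1 - MonoidAlgebra.single (σ t)⁻¹ (q t : ℚ),
        1 - MonoidAlgebra.single (σ t)⁻¹ (q' t : ℚ))) r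
      (fun i j => ((w : MonoidAlgebra ℚ G) * f' i (x j) - ∑ t, toQ (c i t) *
        toGQ (G := G) (lam' t) (x j), (w : MonoidAlgebra ℚ G) * f' i (x j) - ∑ t, toQ (c i t) *
        toGQ (G := G) (lam' t) (x j)))
      (fun i t => (toQ (c i t), toQ (c i t)))
      (fun t j => (toGQ (G := G) (lam t) (x j), toGQ (G := G) (lam' t) (x j)))
      (fun i j => diag_mem N (hY i (x j))) (fun i t => diag_mem N ⟨_, rfl⟩) ?_ ?_ v 1 (one_mem _)
      (Finset.mem_univ v) ?_ ?_
    · obtain ⟨⟨z1, z2⟩, ⟨hz1, hz2, z, hz, h3⟩, h⟩ := hdet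
      change z1 - z2 = _ at h3
      rw [one_mul] at h
      have hfst := congrArg Prod.fst h
      have hsnd := congrArg Prod.snd h
      have e1 : ∀ M : Matrix (Fin r) (Fin r) (MonoidAlgebra ℚ G × MonoidAlgebra ℚ G),
          (Matrix.det M).1 = Matrix.det (Matrix.of fun i j => (M i j).1) := fun M =>
        RingHom.map_det (RingHom.fst (MonoidAlgebra ℚ G) (MonoidAlgebra ℚ G)) M
      have e2 : ∀ M : Matrix (Fin r) (Fin r) (MonoidAlgebra ℚ G × MonoidAlgebra ℚ G),
          (Matrix.det M).2 = Matrix.det (Matrix.of fun i j => (M i j).2) := fun M =>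
        RingHom.map_det (RingHom.snd (MonoidAlgebra ℚ G) (MonoidAlgebra ℚ G)) M
      rw [Prod.fst_mul, Prod.fst_prod, e1] at hfst
      rw [Prod.snd_mul, Prod.snd_prod, e2] at hsnd
      have g1 : (Matrix.of fun i j => (Matrix.of (fun i j =>
          (((w : MonoidAlgebra ℚ G) * f' i (x j) - ∑ t, toQ (c i t) *
            toGQ (G := G) (lam' t) (x j), (w : MonoidAlgebra ℚ G) * f' i (x j) - ∑ t, toQ (c i t) *
            toGQ (G := G) (lam' t) (x j)) : MonoidAlgebra ℚ G × MonoidAlgebra ℚ G) +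
          ∑ t, ((toQ (c i t), toQ (c i t)) : MonoidAlgebra ℚ G × MonoidAlgebra ℚ G) *
            (toGQ (G := G) (lam t) (x j), toGQ (G := G) (lam' t) (x j))) i j).1) =
          Matrix.of fun i j => (w : MonoidAlgebra ℚ G) * f i (x j) := by
        ext i j : 1
        simp only [Matrix.of_apply, Prod.fst_add, Prod.fst_sum, Prod.fst_mul]
        rw [hfa, mul_add, sub_add, ← Finset.sum_sub_distrib, Finset.mul_sum, sub_eq_add_neg,
          ← Finset.sum_neg_distrib]
        congr 1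
        refine Finset.sum_congr rfl fun t _ => ?_
        have h5 : toGQ (G := G) (lam t) (x j) = toGQ (G := G) (lam' t) (x j) +
            (w : MonoidAlgebra ℚ G) * toGQ (G := G) (kap t) (x j) := by
          ext γ
          rw [MonoidAlgebra.coeff_add, Finsupp.add_apply, nat_smul_eq, coeff_toGQ, coeff_toGQ,
            coeff_toGQ, hkap]
        rw [h5]
        ring
      have g2 : (Matrix.of fun i j => (Matrix.of (fun i j =>
          (((w : MonoidAlgebra ℚ G) * f' i (x j) - ∑ t, toQ (c i t) *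
            toGQ (G := G) (lam' t) (x j), (w : MonoidAlgebra ℚ G) * f' i (x j) - ∑ t, toQ (c i t) *
            toGQ (G := G) (lam' t) (x j)) : MonoidAlgebra ℚ G × MonoidAlgebra ℚ G) +
          ∑ t, ((toQ (c i t), toQ (c i t)) : MonoidAlgebra ℚ G × MonoidAlgebra ℚ G) *
            (toGQ (G := G) (lam t) (x j), toGQ (G := G) (lam' t) (x j))) i j).2) =
          Matrix.of fun i j => (w : MonoidAlgebra ℚ G) * f' i (x j) := by
        ext i j : 1
        simp only [Matrix.of_apply, Prod.snd_add, Prod.snd_sum, Prod.snd_mul]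
        rw [sub_add_cancel]
      rw [g1, det_natCast_mul] at hfst
      rw [g2, det_natCast_mul] at hsnd
      have hfst' : z1 = (∏ t, (1 - MonoidAlgebra.single (σ t)⁻¹ (q t : ℚ))) *
          ((w : MonoidAlgebra ℚ G) ^ r * Matrix.det (Matrix.of fun i j => f i (x j))) := hfst.symm
      have hsnd' : z2 = (∏ t, (1 - MonoidAlgebra.single (σ t)⁻¹ (q' t : ℚ))) *
          ((w : MonoidAlgebra ℚ G) ^ r * Matrix.det (Matrix.of fun i j => f' i (x j))) := hsnd.symm
      refine ⟨-z, neg_mem hz, ?_⟩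
      rw [mul_neg, ← h3, hfst', hsnd']
      ring
    · exact fun t _ => hδ t
    · exact fun t _ j => hδΛ t j
    · exact ⟨_, hδ v, (one_mul _).symm⟩
    · exact fun j => ⟨_, hδΛ v j, (one_mul _).symm⟩

end Pool.Agent.U360.RS
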