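import Pool.Agent.U360.RS.Chr
import Pool.Agent.U360.RS.Tr
import Pool.Agent.U360.RS.Cls

/-!
# The arithmetic data of two prime ideals with the same Frobenius automorphism
-/

set_option autoImplicit false
set_option linter.unusedSectionVars false

open NumberField IsDedekindDomain Polynomial

noncomputable section

namespace Pool.Agent.U360.RS

open Pool.Agent.K3h30.RS Pool.Agent.K3h43.RS Pool.Agent.K3h8.RS

/-- the large field -/
theorem exists_field' (F H : Type) [Field F] [NumberField F] [Field H] [NumberField H]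
    [Algebra F H] (N : ℕ) (hN : 0 < N) (Z : Finset Hˣ) :
    ∃ (L : Type) (_ : Field L) (_ : NumberField L) (_ : Algebra H L) (_ : Algebra F L)
      (_ : IsScalarTower F H L), IsGalois F L ∧ (∃ ζ : Lˣ, orderOf ζ = N) ∧
      ∀ x ∈ Subgroup.closure (Z : Set Hˣ), ∃ y : Lˣ,
        y ^ N = Units.map (algebraMap H L : H →* L) x := by
  classical
  let f0 : H[X] := (X ^ N - C 1) * ∏ z ∈ Z, (X ^ N - C (z : H))
  have hf0 : f0 ≠ 0 := mul_ne_zero (X_pow_sub_C_ne_zero hN _)
    (Finset.prod_ne_zero_iff.mpr fun z _ => X_pow_sub_C_ne_zero hN _)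
  obtain ⟨L, i1, i2, i3, i4, i5, hgal, hL⟩ := exists_gal F H f0
  have hroot : ∀ g : H[X], g ∣ f0 → (g.map (algebraMap H L)).Splits := by
    intro g hg
    exact Splits.of_dvd hL (Polynomial.map_ne_zero hf0) (Polynomial.map_dvd _ hg)
  refine ⟨L, i1, i2, i3, i4, i5, hgal, ?_, ?_⟩
  · have h1 : cyclotomic N H ∣ f0 := by
      refine Dvd.dvd.mul_right ?_ _
      rw [map_one]
      exact cyclotomic.dvd_X_pow_sub_one N H
    have h2 := hroot _ h1
    rw [map_cyclotomic] at h2
    obtain ⟨ζ, hζ⟩ := h2.exists_eval_eq_zero (degree_cyclotomic_pos N L hN).ne'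
    have h3 : IsPrimitiveRoot ζ N := (isRoot_cyclotomic_iff_charZero hN).mp hζ
    have h4 := h3.isUnit_unit hN.ne'
    exact ⟨_, h4.eq_orderOf.symm⟩
  · intro x hx
    induction hx using Subgroup.closure_induction with
    | mem z hz =>
      have h1 : (X ^ N - C (z : H)) ∣ f0 :=
        Dvd.dvd.mul_left (Finset.dvd_prod_of_mem (fun z : Hˣ => (X ^ N - C (z : H))) hz) _
      have h2 := hroot _ h1
      rw [Polynomial.map_sub, Polynomial.map_pow, map_X, map_C] at h2
      obtain ⟨α, hα⟩ := h2.exists_eval_eq_zero (by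
        rw [degree_X_pow_sub_C hN]
        exact_mod_cast hN.ne')
      rw [eval_sub, eval_pow, eval_X, eval_C, sub_eq_zero] at hα
      have hα0 : α ≠ 0 := by
        rintro rfl
        rw [zero_pow hN.ne'] at hα
        exact z.ne_zero ((map_eq_zero _).mp hα.symm)
      refine ⟨Units.mk0 α hα0, ?_⟩
      apply Units.ext
      rw [Units.val_pow_eq_pow_val, Units.val_mk0]
      exact hα
    | one => exact ⟨1, by rw [one_pow, map_one]⟩
    | mul x y _ _ hx hy =>
      obtain ⟨u, hu⟩ := hx
      obtain ⟨u', hu'⟩ := hy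
      exact ⟨u * u', by rw [mul_pow, map_mul, hu, hu']⟩
    | inv x _ hx =>
      obtain ⟨u, hu⟩ := hx
      exact ⟨u⁻¹, by rw [inv_pow, map_inv, hu]⟩

section

variable {F H G : Type} [Field F] [NumberField F] [Field H] [NumberField H] [Algebra F H]
  [CommGroup G] [Finite G] [MulSemiringAction G H]

/-- the group of the `N`-th roots in `L` of the `S`-units -/
def Uhat (D : RubinData F H G) (L : Type) [Field L] [NumberField L] [Algebra H L] (N : ℕ) :
    Subgroup Lˣ :=
  ((US D).map (Units.map (algebraMap H L : H →* L))).comap (powMonoidHom N)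

variable (D : RubinData F H G) {L : Type} [Field L] [NumberField L] [Algebra H L] [Algebra F L]
  [IsScalarTower F H L] {N : ℕ}

theorem mem_Uhat {y : Lˣ} : y ∈ Uhat D L N ↔
    ∃ x ∈ US D, Units.map (algebraMap H L : H →* L) x = y ^ N := Iff.rfl

theorem map_mem_Uhat {x : Hˣ} (hx : x ∈ US D) :
    Units.map (algebraMap H L : H →* L) x ∈ Uhat D L N :=
  ⟨x ^ N, pow_mem hx N, map_pow _ _ _⟩

theorem Uhat_unit (hN : 0 < N) {y : Lˣ} (hy : y ∈ Uhat D L N) (P : HeightOneSpectrum (𝓞 L))
    (hP : ¬ Above (D.S : Set (HeightOneSpectrum (𝓞 F))) P) : P.valuation L (y : L) = 1 := by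
  obtain ⟨x, hx, hxy⟩ := hy
  obtain ⟨v, hv⟩ := exists_above (F := F) P
  rw [above_iff hv] at hP
  rw [above_singleton] at hv
  obtain ⟨w, hPw, hw⟩ := exists_under F H L v P hv
  have h1 : w.valuation H (x : H) = 1 := by
    refine hx.1 w ?_
    rw [above_iff (⟨v, rfl, hw⟩ : Above {v} w)]
    exact hP
  have h2 := val_eq w P hPw _ h1
  have h3 : algebraMap H L (x : H) = (y : L) ^ N := by
    have := congrArg (fun z : Lˣ => (z : L)) hxy
    simpa using this
  rw [h3, map_pow] at h2
  exact (pow_eq_one_iff_of_nonneg zero_le hN.ne').1 h2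

theorem Uhat_fg (hN : 0 < N) : AddGroup.FG (Additive (Uhat D L N)) := by
  have hle : Uhat D L N ≤ unitGroup (H := L) (D.S : Set (HeightOneSpectrum (𝓞 F))) ∅ := by
    intro y hy
    refine ⟨fun P hP => Uhat_unit D hN hy P hP, fun w hw => ?_⟩
    obtain ⟨v, hv, -⟩ := hw
    exact absurd hv (Set.notMem_empty v)
  have hfg : AddGroup.FG (Additive (unitGroup (H := L) (D.S : Set (HeightOneSpectrum (𝓞 F))) ∅)) :=
    fgA Pool.Agent.K3h25.RS.t_OVER D.S
  have hfin : Module.Finite ℤ (Additive (unitGroup (H := L)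
    (D.S : Set (HeightOneSpectrum (𝓞 F))) ∅)) := Module.Finite.iff_addGroup_fg.2 hfg
  have h1 : Module.Finite ℤ (Additive (Uhat D L N)) :=
    Module.Finite.of_injective (MonoidHom.toAdditive (Subgroup.inclusion hle)).toIntLinearMap
      (Subgroup.inclusion_injective hle)
  exact Module.Finite.iff_addGroup_fg.1 h1

/-- torsion in the group of the roots -/
theorem Uhat_tors (w : ℕ) (hw : ∀ a : Additive (US D), IsOfFinAddOrder a → w • a = 0)
    (y : Additive (Uhat D L N)) (hy : IsOfFinAddOrder y) :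
    (((Additive.toMul y : Uhat D L N) : Lˣ)) ^ (w * N) = 1 := by
  obtain ⟨x, hx, hxy⟩ := (Additive.toMul y).2
  have hxy' : Units.map (algebraMap H L : H →* L) x =
      ((Additive.toMul y : Uhat D L N) : Lˣ) ^ N := hxy
  have hinj : Function.Injective (Units.map (algebraMap H L : H →* L)) :=
    Units.map_injective (algebraMap H L).injective
  obtain ⟨n, hn, hny⟩ := isOfFinAddOrder_iff_nsmul_eq_zero.1 hy
  have hny' : ((Additive.toMul y : Uhat D L N) : Lˣ) ^ n = 1 :=
    congrArg (fun z : Additive (Uhat D L N) => ((Additive.toMul z : Uhat D L N) : Lˣ)) hny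
  have h1 : x ^ n = 1 := by
    apply hinj
    rw [map_pow, hxy', ← pow_mul, mul_comm, pow_mul, hny', one_pow, map_one]
  have h2 : w • (Additive.ofMul (⟨x, hx⟩ : US D)) = 0 := by
    refine hw _ ?_
    rw [isOfFinAddOrder_iff_nsmul_eq_zero]
    refine ⟨n, hn, ?_⟩
    apply Additive.toMul.injective
    apply Subtype.ext
    exact h1
  have h3 : x ^ w = 1 := congrArg (fun z : Additive (US D) => ((Additive.toMul z : US D) : Hˣ)) h2
  rw [mul_comm, pow_mul, ← hxy', ← map_pow, h3, map_one]

/-- the action of an automorphism on the group of the roots -/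
theorem Phi_mem [IsGaloisGroup G F H] (Φ : L ≃ₐ[F] L) (σ : G)
    (hres : ∀ x : H, Φ (algebraMap H L x) = algebraMap H L (σ • x)) {y : Lˣ}
    (hy : y ∈ Uhat D L N) : Units.map ((Φ : L →+* L) : L →* L) y ∈ Uhat D L N := by
  obtain ⟨x, hx, hxy⟩ := hy
  refine ⟨act σ x, act_mem Pool.Agent.K3h25.RS.t_TRANS _ _ _ hx, ?_⟩
  have hxy' : Units.map (algebraMap H L : H →* L) x = y ^ N := hxy
  change _ = (Units.map ((Φ : L →+* L) : L →* L) y) ^ N
  rw [← map_pow, ← hxy']
  apply Units.ext
  exact (hres (x : H)).symm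

/-- the action of an automorphism on the group of the roots -/
def PhiU [IsGaloisGroup G F H] (N : ℕ) (Φ : L ≃ₐ[F] L) (σ : G)
    (hres : ∀ x : H, Φ (algebraMap H L x) = algebraMap H L (σ • x)) :
    Additive (Uhat D L N) ≃+ Additive (Uhat D L N) where
  toFun y := Additive.ofMul ⟨Units.map ((Φ : L →+* L) : L →* L) (Additive.toMul y : Uhat D L N),
    Phi_mem D Φ σ hres (Additive.toMul y).2⟩
  invFun y := Additive.ofMul ⟨Units.map ((Φ.symm : L →+* L) : L →* L)
    (Additive.toMul y : Uhat D L N), Phi_mem D Φ.symm σ⁻¹ (fun x => by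
      rw [← Φ.injective.eq_iff, AlgEquiv.apply_symm_apply, hres, smul_inv_smul])
      (Additive.toMul y).2⟩
  left_inv y := by
    apply Additive.toMul.injective
    apply Subtype.ext
    apply Units.ext
    exact Φ.symm_apply_apply _
  right_inv y := by
    apply Additive.toMul.injective
    apply Subtype.ext
    apply Units.ext
    exact Φ.apply_symm_apply _
  map_add' x y := by
    apply Additive.toMul.injective
    apply Subtype.ext
    exact map_mul (Units.map ((Φ : L →+* L) : L →* L)) _ _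

end

end Pool.Agent.U360.RS
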