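import Pool.Agent.U360.RS.Alg
import Pool.Agent.K3h8.RS.Frob
import Pool.Agent.K3h44.RS.Dlog

/-!
# Characters of the residue fields of two prime ideals which agree on the roots of unity
-/

set_option autoImplicit false
set_option linter.unusedSectionVars false

open NumberField IsDedekindDomain

noncomputable section

namespace Pool.Agent.U360.RS

open Pool.Agent.K3h30.RS Pool.Agent.K3h43.RS Pool.Agent.K3h8.RS

/-- two elements of the same order are multiples of each other by a unit modulo `n'` -/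
theorem exists_unit_mul (x x' : QZ) (n n' : ℕ) (hn : 0 < n) (hx : addOrderOf x = n)
    (hx' : addOrderOf x' = n) (hd : n ∣ n') (hn' : 0 < n') :
    ∃ k : ℕ, Nat.Coprime k n' ∧ k • x' = x := by
  obtain ⟨m, hm1, hm2, hm⟩ := (AddCircle.addOrderOf_eq_pos_iff hn).1 hx
  obtain ⟨m', hm1', hm2', hm'⟩ := (AddCircle.addOrderOf_eq_pos_iff hn).1 hx'
  have : NeZero n' := ⟨hn'.ne'⟩
  have : NeZero n := ⟨hn.ne'⟩
  let u : (ZMod n)ˣ := ZMod.unitOfCoprime m hm2
  let u' : (ZMod n)ˣ := ZMod.unitOfCoprime m' hm2'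
  obtain ⟨k, hk⟩ := ZMod.unitsMap_surjective hd (u * u'⁻¹)
  refine ⟨(k : ZMod n').val, ZMod.val_coe_unit_coprime k, ?_⟩
  have h1 : (((k : ZMod n').val : ℕ) : ZMod n) * (m' : ZMod n) = (m : ZMod n) := by
    have h2 := congrArg (fun z : (ZMod n)ˣ => (z : ZMod n)) hk
    simp only [ZMod.unitsMap_val, Units.val_mul] at h2
    rw [ZMod.cast_eq_val] at h2
    rw [h2]
    have h3 : (u'⁻¹ : (ZMod n)ˣ) * (u' : ZMod n) = (1 : ZMod n) := Units.inv_mul u'
    have h4 : ((u' : (ZMod n)ˣ) : ZMod n) = (m' : ZMod n) := ZMod.coe_unitOfCoprime _ _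
    have h5 : ((u : (ZMod n)ˣ) : ZMod n) = (m : ZMod n) := ZMod.coe_unitOfCoprime _ _
    rw [mul_assoc, ← h4, h3, mul_one, h5]
  rw [← Nat.cast_mul, ZMod.natCast_eq_natCast_iff] at h1
  rw [← hm', ← hm, ← AddCircle.coe_nsmul, ← sub_eq_zero, ← AddCircle.coe_sub, QZ_zero]
  obtain ⟨z, hz⟩ := (Nat.modEq_iff_dvd.1 h1.symm)
  refine ⟨z, ?_⟩
  have hn0 : (n : ℚ) ≠ 0 := by positivity
  have h6 : ((k : ZMod n').val * m' : ℚ) - m = n * z := by exact_mod_cast hz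
  rw [nsmul_eq_mul]
  field_simp
  linarith

variable {L : Type} [Field L] [NumberField L]

theorem one_lt_norm (P : HeightOneSpectrum (𝓞 L)) : 1 < Ideal.absNorm P.asIdeal := by
  have h0 : Ideal.absNorm P.asIdeal ≠ 0 := by
    rw [Ne, Ideal.absNorm_eq_zero_iff]
    exact P.ne_bot
  have h1 : Ideal.absNorm P.asIdeal ≠ 1 := by
    rw [Ne, Ideal.absNorm_eq_one_iff]
    exact P.isPrime.ne_top
  omega

/-- a root of unity is a unit at `P` -/
theorem root_unit (P : HeightOneSpectrum (𝓞 L)) (n₀ : ℕ) (hn₀ : 0 < n₀) (τ : Lˣ)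
    (h : τ ^ n₀ = 1) : τ ∈ unitsAt P := by
  change P.valuation L (τ : L) = 1
  have h1 : P.valuation L (τ : L) ^ n₀ = 1 := by
    rw [← map_pow, ← Units.val_pow_eq_pow_val, h, Units.val_one, map_one]
  exact (pow_eq_one_iff_of_nonneg zero_le hn₀.ne').1 h1

/-- the order of the value of a character at a root of unity -/
theorem order_char (P : HeightOneSpectrum (𝓞 L)) (n₀ : ℕ) (hP : P.valuation L (n₀ : L) = 1)
    (r : Additive (unitsAt P) →+ QZ)
    (hr : ∀ x : unitsAt P, r (Additive.ofMul x) = 0 ↔ P.valuation L (((x : Lˣ) : L) - 1) < 1)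
    (τ : Lˣ) (h : τ ∈ unitsAt P) (h1 : τ ^ n₀ = 1) :
    addOrderOf (r (Additive.ofMul ⟨τ, h⟩)) = orderOf τ := by
  have key : ∀ j : ℕ, j • r (Additive.ofMul ⟨τ, h⟩) = 0 ↔ τ ^ j = 1 := by
    intro j
    rw [← map_nsmul, ← ofMul_pow, hr]
    constructor
    · intro h2
      refine root_eq_one P n₀ hP (τ ^ j) ?_ h2
      rw [← pow_mul, mul_comm, pow_mul, h1, one_pow]
    · intro h2
      have h3 : (((⟨τ, h⟩ : unitsAt P) ^ j : unitsAt P) : Lˣ) = τ ^ j := rfl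
      rw [h3, h2, Units.val_one, sub_self, map_zero]
      exact zero_lt_one
  refine Nat.dvd_antisymm ?_ ?_
  · rw [addOrderOf_dvd_iff_nsmul_eq_zero, key]
    exact pow_orderOf_eq_one τ
  · rw [orderOf_dvd_iff_pow_eq_one, ← key]
    exact addOrderOf_nsmul_eq_zero _

/-- **the characters** -/
theorem exists_chars (P P' : HeightOneSpectrum (𝓞 L)) (n₀ : ℕ) (hn₀ : 0 < n₀)
    (hP : P.valuation L (n₀ : L) = 1) (hP' : P'.valuation L (n₀ : L) = 1) :
    ∃ (r : Additive (unitsAt P) →+ QZ) (r' : Additive (unitsAt P') →+ QZ) (m : ℕ), 0 < m ∧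
      (∀ x, m • r x = 0) ∧ (∀ x, m • r' x = 0) ∧
      (∀ x : unitsAt P, r (Additive.ofMul x) = 0 ↔ P.valuation L (((x : Lˣ) : L) - 1) < 1) ∧
      (∀ x : unitsAt P', r' (Additive.ofMul x) = 0 ↔ P'.valuation L (((x : Lˣ) : L) - 1) < 1) ∧
      ∀ (τ : Lˣ) (h : τ ∈ unitsAt P) (h' : τ ∈ unitsAt P'), τ ^ n₀ = 1 →
        r (Additive.ofMul ⟨τ, h⟩) = r' (Additive.ofMul ⟨τ, h'⟩) := by
  obtain ⟨r, hr1, hr2⟩ := Pool.Agent.K3h44.RS.t_DLOG L P
  obtain ⟨s, hs1, hs2⟩ := Pool.Agent.K3h44.RS.t_DLOG L P'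
  have hNP := one_lt_norm P
  have hNP' := one_lt_norm P'
  -- the generator of the roots of unity
  have : NeZero n₀ := ⟨hn₀.ne'⟩
  obtain ⟨ζ, hζ⟩ := (inferInstance : IsCyclic (rootsOfUnity n₀ L)).exists_generator
  have hζ1 : (ζ : Lˣ) ^ n₀ = 1 := (mem_rootsOfUnity n₀ (ζ : Lˣ)).1 ζ.2
  have hu := root_unit P n₀ hn₀ (ζ : Lˣ) hζ1
  have hu' := root_unit P' n₀ hn₀ (ζ : Lˣ) hζ1
  have ho := order_char P n₀ hP r hr1 (ζ : Lˣ) hu hζ1
  have ho' := order_char P' n₀ hP' s hs1 (ζ : Lˣ) hu' hζ1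
  have hpos : 0 < orderOf (ζ : Lˣ) := by
    rw [orderOf_pos_iff, isOfFinOrder_iff_pow_eq_one]
    exact ⟨n₀, hn₀, hζ1⟩
  have hdvd : orderOf (ζ : Lˣ) ∣ Ideal.absNorm P'.asIdeal - 1 := by
    rw [← ho', addOrderOf_dvd_iff_nsmul_eq_zero]
    exact hs2 _
  obtain ⟨k, hk, hk'⟩ := exists_unit_mul _ _ (orderOf (ζ : Lˣ)) (Ideal.absNorm P'.asIdeal - 1)
    hpos ho ho' hdvd (by omega)
  refine ⟨r, k • s, (Ideal.absNorm P.asIdeal - 1) * (Ideal.absNorm P'.asIdeal - 1), ?_, ?_, ?_, hr1,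
    ?_, ?_⟩
  · exact Nat.mul_pos (by omega) (by omega)
  · intro x
    rw [mul_comm, mul_smul, hr2, smul_zero]
  · intro x
    rw [AddMonoidHom.nsmul_apply, mul_smul, smul_comm (Ideal.absNorm P'.asIdeal - 1), hs2,
      smul_zero, smul_zero]
  · intro x
    rw [← hs1, AddMonoidHom.nsmul_apply]
    constructor
    · intro h
      have h1 := hs2 (Additive.ofMul x)
      rw [← addOrderOf_dvd_iff_nsmul_eq_zero] at h h1
      have h2 : addOrderOf (s (Additive.ofMul x)) = 1 := Nat.eq_one_of_dvd_coprimes hk h h1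
      exact AddMonoid.addOrderOf_eq_one_iff.1 h2
    · intro h
      rw [h, smul_zero]
  · intro τ h h' hτ
    obtain ⟨j, hj⟩ := hζ ⟨τ, (mem_rootsOfUnity n₀ τ).2 hτ⟩
    have hj' : (ζ : Lˣ) ^ j = τ := congrArg (fun z : rootsOfUnity n₀ L => (z : Lˣ)) hj
    have e1 : (Additive.ofMul (⟨τ, h⟩ : unitsAt P)) =
        j • Additive.ofMul (⟨(ζ : Lˣ), hu⟩ : unitsAt P) := by
      apply Additive.toMul.injective
      apply Subtype.ext
      exact hj'.symm
    have e2 : (Additive.ofMul (⟨τ, h'⟩ : unitsAt P')) =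
        j • Additive.ofMul (⟨(ζ : Lˣ), hu'⟩ : unitsAt P') := by
      apply Additive.toMul.injective
      apply Subtype.ext
      exact hj'.symm
    rw [e1, e2, map_zsmul, map_zsmul, AddMonoidHom.nsmul_apply, hk']

end Pool.Agent.U360.RS
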