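import Pool.Agent.K3h30.RS.Defs

/-!
# Frobenius automorphisms of arbitrary finite extensions
-/

set_option autoImplicit false

open NumberField IsDedekindDomain

noncomputable section

namespace Pool.Agent.U360.RS

open Pool.Agent.K3h30.RS

/-- The automorphism `Φ` of `L` over `F` acts as a Frobenius automorphism at some prime ideal `P` of
`L` over `v`: `Φ x` is congruent to `x ^ (N v)` modulo `P` for all algebraic integers `x` of `L`. -/
def HasFrob {F L : Type} [Field F] [NumberField F] [Field L] [NumberField L] [Algebra F L]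
    (Φ : L ≃ₐ[F] L) (v : HeightOneSpectrum (𝓞 F)) : Prop :=
  ∃ P : HeightOneSpectrum (𝓞 L), Above {v} P ∧
    ∀ x : 𝓞 L, P.valuation L (Φ (x : L) - (x : L) ^ (Ideal.absNorm v.asIdeal)) < 1

/-- There is a bijection between the finite sets `T`, `T'` of prime ideals of `F` which preserves the
Frobenius classes in `L`. -/
def SameFrob {F : Type} (L : Type) [Field F] [NumberField F] [Field L] [NumberField L]
    [Algebra F L] (T T' : Finset (HeightOneSpectrum (𝓞 F))) : Prop :=
  ∃ e : T ≃ T', ∀ t : T, ∃ Φ : L ≃ₐ[F] L, HasFrob Φ (t : HeightOneSpectrum (𝓞 F)) ∧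
    HasFrob Φ (e t : HeightOneSpectrum (𝓞 F))

/-- There is an injection of the finite set `M` of prime ideals of `F` into `T` which preserves the
Frobenius classes in `L`: every `t ∈ M` and its image have a common Frobenius automorphism. -/
def EmbFrob {F : Type} (L : Type) [Field F] [NumberField F] [Field L] [NumberField L]
    [Algebra F L] (M T : Finset (HeightOneSpectrum (𝓞 F))) : Prop :=
  ∃ e : M ↪ T, ∀ t : M, ∃ Φ : L ≃ₐ[F] L, HasFrob Φ (t : HeightOneSpectrum (𝓞 F)) ∧
    HasFrob Φ (e t : HeightOneSpectrum (𝓞 F))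

end Pool.Agent.U360.RS
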