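import Pool.Agent.U360.RS.Main
import Pool.Agent.W352.ChAbs.Main
import Pool.Agent.W401.Cheb.Frob
import Pool.Agent.W401.Cheb.Main

/-!
# Natural densities of sets of prime ideals given by Frobenius classes
-/

set_option autoImplicit false
set_option linter.unusedSectionVars false

open NumberField IsDedekindDomain Filter Topology

noncomputable section

namespace Pool.Agent.U360.RS

open Pool.Agent.K3h30.RS Pool.Agent.K3h43.RS Pool.Agent.K3h8.RS Pool.Agent.W401.Cheb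

theorem chebK : ChebK := Pool.Agent.W352.ChAbs.main chebotarev fun L => torsor L

theorem coe_smul' {K : Type} [Field K] [NumberField K] (σ : GK K) (x : 𝓞 (AlgebraicClosure K)) :
    ((σ • x : 𝓞 (AlgebraicClosure K)) : AlgebraicClosure K) = σ (x : AlgebraicClosure K) := rfl

section

variable {F L : Type} [Field F] [NumberField F] [Field L] [NumberField L] [Algebra F L]

/-- conjugate Frobenius automorphisms -/
theorem hasFrob_conj {Φ : L ≃ₐ[F] L} {v : HeightOneSpectrum (𝓞 F)} (h : HasFrob Φ v)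
    (Ψ : L ≃ₐ[F] L) : HasFrob (Ψ * Φ * Ψ⁻¹) v := by
  obtain ⟨P, hP, hΦ⟩ := h
  let m : 𝓞 L →+* 𝓞 L := RingOfIntegers.mapRingHom ((Ψ⁻¹ : L ≃ₐ[F] L) : L →+* L)
  have hm : ∀ x : 𝓞 L, ((m x : 𝓞 L) : L) = Ψ⁻¹ (x : L) := fun x => rfl
  have hinj : Function.Injective m := by
    intro x y hxy
    have h1 : Ψ⁻¹ (x : L) = Ψ⁻¹ (y : L) := by rw [← hm, ← hm, hxy]
    exact RingOfIntegers.ext ((Ψ⁻¹ : L ≃ₐ[F] L).injective h1)
  have hsurj : Function.Surjective m := by
    intro x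
    refine ⟨RingOfIntegers.mapRingHom (Ψ : L →+* L) x, RingOfIntegers.ext ?_⟩
    change Ψ⁻¹ (Ψ (x : L)) = x
    exact Ψ.symm_apply_apply _
  have hne : P.asIdeal.comap m ≠ ⊥ := by
    intro h0
    apply P.ne_bot
    rw [eq_bot_iff]
    intro x hx
    obtain ⟨y, rfl⟩ := hsurj x
    have h1 : y ∈ P.asIdeal.comap m := hx
    rw [h0, Ideal.mem_bot] at h1
    rw [h1, map_zero]
    exact Ideal.zero_mem _
  have hpr : P.asIdeal.IsPrime := P.isPrime
  refine ⟨⟨P.asIdeal.comap m, Ideal.comap_isPrime m _, hne⟩, ?_, fun x => ?_⟩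
  · rw [above_singleton] at hP ⊢
    rw [← hP, Ideal.comap_comap]
    congr 1
    ext x
    change Ψ⁻¹ (algebraMap F L (x : F)) = algebraMap F L (x : F)
    exact (Ψ⁻¹ : L ≃ₐ[F] L).commutes _
  · have h1 := hΦ (m x)
    let z : 𝓞 L := RingOfIntegers.mapRingHom ((Ψ * Φ * Ψ⁻¹ : L ≃ₐ[F] L) : L →+* L) x -
      x ^ Ideal.absNorm v.asIdeal
    have hz : (z : L) = (Ψ * Φ * Ψ⁻¹) (x : L) - (x : L) ^ Ideal.absNorm v.asIdeal := by
      change ((_ - _ : 𝓞 L) : L) = _
      push_cast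
      rfl
    rw [← hz]
    have h2 : ((m z : 𝓞 L) : L) = Φ ((m x : 𝓞 L) : L) - ((m x : 𝓞 L) : L) ^
        (Ideal.absNorm v.asIdeal) := by
      rw [hm, hz, hm, map_sub, map_pow]
      congr 1
      change Ψ.symm (Ψ (Φ (Ψ⁻¹ (x : L)))) = _
      rw [AlgEquiv.symm_apply_apply]
    rw [← h2] at h1
    have h3 : m z ∈ P.asIdeal := (P.valuation_lt_one_iff_mem (K := L) (m z)).1 h1
    exact (HeightOneSpectrum.valuation_lt_one_iff_mem (K := L) _ z).2 h3

/-- **Chebotarev's theorem** for sets of prime ideals given by Frobenius classes. -/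
theorem cheb_dens [IsGalois F L] (𝒞 : Set (L ≃ₐ[F] L))
    (h𝒞 : ∀ Φ ∈ 𝒞, ∀ Ψ : L ≃ₐ[F] L, Ψ * Φ * Ψ⁻¹ ∈ 𝒞) (P : HeightOneSpectrum (𝓞 F) → Prop)
    (bad : Finset (HeightOneSpectrum (𝓞 F)))
    (hP : ∀ v, v ∉ bad → ∀ Φ : L ≃ₐ[F] L, HasFrob Φ v → (P v ↔ Φ ∈ 𝒞)) :
    Tendsto (dens P) atTop (𝓝 ((𝒞.ncard : ℝ) / (Nat.card (L ≃ₐ[F] L) : ℝ))) := by
  classical
  let ι : L →ₐ[F] AlgebraicClosure F := IsAlgClosed.lift
  let _ : Algebra L (AlgebraicClosure F) := ι.toRingHom.toAlgebra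
  have : IsScalarTower F L (AlgebraicClosure F) :=
    IsScalarTower.of_algebraMap_eq' ι.comp_algebraMap.symm
  have hι : ∀ x, algebraMap L (AlgebraicClosure F) x = ι x := fun x => rfl
  let r : GK F →* (L ≃ₐ[F] L) := AlgEquiv.restrictNormalHom L
  have hr : ∀ (σ : GK F) (x : L), ι (r σ x) = σ (ι x) := fun σ x =>
    AlgEquiv.restrictNormal_commutes σ L x
  have hrs : Function.Surjective r := AlgEquiv.restrictNormalHom_surjective (F := F) (K₁ := L)
    (AlgebraicClosure F)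
  -- the kernel is open
  have hU : IsOpen (r.ker : Set (GK F)) := by
    have hfd : FiniteDimensional F ι.fieldRange := by
      exact (AlgEquiv.ofInjectiveField ι).toLinearEquiv.finiteDimensional
    refine Subgroup.isOpen_mono (H₁ := ι.fieldRange.fixingSubgroup) ?_
      (IntermediateField.fixingSubgroup_isOpen ι.fieldRange)
    intro σ hσ
    rw [MonoidHom.mem_ker]
    refine AlgEquiv.ext fun x => ι.injective ?_
    change ι (r σ x) = ι x
    rw [hr]
    exact (IntermediateField.mem_fixingSubgroup_iff _ _).mp hσ (ι x) ⟨x, rfl⟩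
  let C : Set (GK F) := {σ | r σ ∈ 𝒞}
  have hC1 : ∀ σ ∈ C, ∀ τ : GK F, τ * σ * τ⁻¹ ∈ C := by
    intro σ hσ τ
    change r (τ * σ * τ⁻¹) ∈ 𝒞
    rw [map_mul, map_mul, map_inv]
    exact h𝒞 _ hσ _
  have hC2 : ∀ σ ∈ C, ∀ u ∈ r.ker, σ * u ∈ C := by
    intro σ hσ u hu
    change r (σ * u) ∈ 𝒞
    rw [map_mul, MonoidHom.mem_ker.mp hu, mul_one]
    exact hσ
  have h1 := chebK F r.ker hU C hC1 hC2
  -- the quotient
  have hcard : Nat.card (GK F ⧸ r.ker) = Nat.card (L ≃ₐ[F] L) :=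
    Nat.card_congr (QuotientGroup.quotientKerEquivOfSurjective r hrs).toEquiv
  have hcard2 : ((QuotientGroup.mk : GK F → GK F ⧸ r.ker) '' C).ncard = 𝒞.ncard := by
    rw [← Set.ncard_image_of_injective _ (QuotientGroup.quotientKerEquivOfSurjective r
      hrs).injective, ← Set.image_comp]
    congr 1
    ext Φ
    constructor
    · rintro ⟨σ, hσ, rfl⟩
      exact hσ
    · intro hΦ
      obtain ⟨σ, rfl⟩ := hrs Φ
      exact ⟨σ, hΦ, rfl⟩
  rw [hcard, hcard2] at h1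
  -- Frobenius elements
  have hF : ∀ (v : HeightOneSpectrum (𝓞 F)) (σ : GK F), W401.Cheb.IsFrob v σ →
      HasFrob (r σ) v := by
    rintro v σ ⟨Q, hQ, hQv, hQσ⟩
    let m : 𝓞 L →+* 𝓞 (AlgebraicClosure F) :=
      RingOfIntegers.mapRingHom (ι : L →+* AlgebraicClosure F)
    have hcm : m.comp (algebraMap (𝓞 F) (𝓞 L)) = algebraMap (𝓞 F) (𝓞 (AlgebraicClosure F)) := by
      ext x
      change ι (algebraMap F L (x : F)) = algebraMap F (AlgebraicClosure F) (x : F)
      exact ι.commutes _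
    have hpr : Q.IsPrime := hQ.isPrime
    have hcomap : (Q.comap m).comap (algebraMap (𝓞 F) (𝓞 L)) = v.asIdeal := by
      rw [Ideal.comap_comap, hcm, hQv]
    have hne : Q.comap m ≠ ⊥ := by
      intro h0
      apply v.ne_bot
      rw [← hcomap, h0]
      exact (RingHom.injective_iff_ker_eq_bot _).mp (FaithfulSMul.algebraMap_injective _ _)
    refine ⟨⟨Q.comap m, Ideal.comap_isPrime m _, hne⟩, ⟨v, rfl, hcomap⟩, fun x => ?_⟩
    let z : 𝓞 L := RingOfIntegers.mapRingHom ((r σ : L ≃ₐ[F] L) : L →+* L) x -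
      x ^ Ideal.absNorm v.asIdeal
    have hz : (z : L) = (r σ) (x : L) - (x : L) ^ Ideal.absNorm v.asIdeal := by
      change ((_ - _ : 𝓞 L) : L) = _
      push_cast
      rfl
    rw [← hz]
    refine (HeightOneSpectrum.valuation_lt_one_iff_mem (K := L) _ z).2 ?_
    change m z ∈ Q
    have h2 := hQσ (m x)
    have h3 : σ • m x = m (RingOfIntegers.mapRingHom ((r σ : L ≃ₐ[F] L) : L →+* L) x) := by
      apply RingOfIntegers.ext
      rw [coe_smul']
      change σ (ι (x : L)) = ι (r σ (x : L))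
      rw [hr]
    have h4 : m z = m (RingOfIntegers.mapRingHom ((r σ : L ≃ₐ[F] L) : L →+* L) x) -
        (m x) ^ Ideal.absNorm v.asIdeal := by
      change m (_ - _) = _
      rw [map_sub, map_pow]
    rw [h4, ← h3]
    exact h2
  -- comparison outside `bad`
  have hcomp : ∀ v, v ∉ bad → (P v ↔ ∃ σ ∈ C, W401.Cheb.IsFrob v σ) := by
    intro v hv
    constructor
    · intro hPv
      obtain ⟨σ, hσ⟩ := (Pool.Agent.W401.Frob.main F).1 v
      exact ⟨σ, (hP v hv _ (hF v σ hσ)).1 hPv, hσ⟩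
    · rintro ⟨σ, hσ, hσ'⟩
      exact (hP v hv _ (hF v σ hσ')).2 hσ
  -- the limits agree
  have hdiff : ∀ n : ℕ, |dens P n - dens (fun v => ∃ σ ∈ C, W401.Cheb.IsFrob v σ) n| ≤
      (bad.card : ℝ) / (Nat.primeCounting n : ℝ) := by
    intro n
    have key : ∀ A B : HeightOneSpectrum (𝓞 F) → Prop, (∀ v, v ∉ bad → (A v → B v)) →
        Nat.card {v : HeightOneSpectrum (𝓞 F) // Ideal.absNorm v.asIdeal ≤ n ∧ A v} ≤
        Nat.card {v : HeightOneSpectrum (𝓞 F) // Ideal.absNorm v.asIdeal ≤ n ∧ B v} +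
          bad.card := by
      intro A B hAB
      have e1 : Nat.card {v : HeightOneSpectrum (𝓞 F) // Ideal.absNorm v.asIdeal ≤ n ∧ A v} =
        Set.ncard {v : HeightOneSpectrum (𝓞 F) | Ideal.absNorm v.asIdeal ≤ n ∧ A v} :=
        Nat.card_coe_set_eq _
      have e2 : Nat.card {v : HeightOneSpectrum (𝓞 F) // Ideal.absNorm v.asIdeal ≤ n ∧ B v} =
        Set.ncard {v : HeightOneSpectrum (𝓞 F) | Ideal.absNorm v.asIdeal ≤ n ∧ B v} :=
        Nat.card_coe_set_eq _
      rw [e1, e2, ← Set.ncard_coe_finset bad]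
      refine le_trans (Set.ncard_le_ncard (t := {v : HeightOneSpectrum (𝓞 F) |
        Ideal.absNorm v.asIdeal ≤ n ∧ B v} ∪ (bad : Set (HeightOneSpectrum (𝓞 F))))
        ?_ ?_) (Set.ncard_union_le _ _)
      · intro v hv
        by_cases hb : v ∈ bad
        · exact Or.inr (Finset.mem_coe.2 hb)
        · exact Or.inl ⟨hv.1, hAB v hb hv.2⟩
      · exact (((Pool.Agent.W352.ChAbs.finite_le (K := F) n)).subset
          fun v hv => hv.1).union bad.finite_toSet
    have h5 := key P (fun v => ∃ σ ∈ C, W401.Cheb.IsFrob v σ) fun v hv => (hcomp v hv).1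
    have h6 := key (fun v => ∃ σ ∈ C, W401.Cheb.IsFrob v σ) P fun v hv => (hcomp v hv).2
    unfold dens
    rw [← sub_div, abs_div, Nat.abs_cast]
    refine div_le_div_of_nonneg_right ?_ (Nat.cast_nonneg _)
    rw [abs_le]
    constructor
    · have : (Nat.card {v : HeightOneSpectrum (𝓞 F) // Ideal.absNorm v.asIdeal ≤ n ∧
          ∃ σ ∈ C, W401.Cheb.IsFrob v σ} : ℝ) ≤
        Nat.card {v : HeightOneSpectrum (𝓞 F) // Ideal.absNorm v.asIdeal ≤ n ∧ P v} + bad.card := by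
        exact_mod_cast h6
      linarith
    · have : (Nat.card {v : HeightOneSpectrum (𝓞 F) // Ideal.absNorm v.asIdeal ≤ n ∧ P v} : ℝ) ≤
        Nat.card {v : HeightOneSpectrum (𝓞 F) // Ideal.absNorm v.asIdeal ≤ n ∧
          ∃ σ ∈ C, W401.Cheb.IsFrob v σ} + bad.card := by
        exact_mod_cast h5
      linarith
  have h7 : Tendsto (fun n : ℕ => (bad.card : ℝ) / (Nat.primeCounting n : ℝ)) atTop (𝓝 0) := by
    apply Tendsto.const_div_atTop
    exact tendsto_natCast_atTop_atTop.comp Nat.tendsto_primeCounting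
  have h8 : Tendsto (fun n => dens P n - dens (fun v => ∃ σ ∈ C, W401.Cheb.IsFrob v σ) n) atTop
      (𝓝 0) := squeeze_zero_norm hdiff h7
  have h9 := h8.add h1
  rw [zero_add] at h9
  refine h9.congr fun n => ?_
  ring

theorem finite_aut : Finite (L ≃ₐ[F] L) := inferInstance

/-- the density relative to all prime ideals -/
theorem ratio_tendsto {P : HeightOneSpectrum (𝓞 F) → Prop} {δ : ℝ}
    (h : Tendsto (dens P) atTop (𝓝 δ)) :
    Tendsto (fun X : ℕ =>
      (Nat.card {v : HeightOneSpectrum (𝓞 F) // Ideal.absNorm v.asIdeal ≤ X ∧ P v} : ℝ) /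
        Nat.card {v : HeightOneSpectrum (𝓞 F) // Ideal.absNorm v.asIdeal ≤ X}) atTop (𝓝 δ) := by
  have h1 : Tendsto (dens (K := F) fun _ => True) atTop (𝓝 1) := by
    have h2 := cheb_dens (F := F) (L := F) Set.univ (fun _ _ _ => Set.mem_univ _) (fun _ => True) ∅
      (fun v _ Φ _ => by simp)
    rw [Set.ncard_univ, div_self (by exact_mod_cast Nat.card_pos.ne')] at h2
    exact h2
  have h3 := h.div h1 one_ne_zero
  rw [div_one] at h3
  have h4 : ∀ᶠ X : ℕ in atTop, (1 : ℝ) ≤ (Nat.primeCounting X : ℝ) :=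
    (tendsto_natCast_atTop_atTop.comp Nat.tendsto_primeCounting).eventually_ge_atTop _
  refine h3.congr' ?_
  filter_upwards [h4] with X hX
  have hX0 : (Nat.primeCounting X : ℝ) ≠ 0 := by positivity
  change dens P X / dens (fun _ => True) X = _
  unfold dens
  rw [div_div_div_cancel_right₀ hX0]
  congr 2
  exact Nat.card_congr (Equiv.subtypeEquivRight fun v => by simp)

end

section

variable {F H G : Type} [Field F] [NumberField F] [Field H] [NumberField H] [Algebra F H]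
  [CommGroup G] [Finite G] [MulSemiringAction G H]

/-- a good prime ideal outside a finite set -/
theorem exists_good_prime [hG : IsGaloisGroup G F H] (D : RubinData F H G)
    (hS : ∃ T, Disjoint D.S T ∧ D.Stark T) (bad : Finset (HeightOneSpectrum (𝓞 F))) :
    ∃ v, v ∉ bad ∧ D.Rubin {v} := by
  classical
  obtain ⟨L, i1, i2, i3, bad', h⟩ := ((K3h30.RS.main D).out 0 4).1 hS
  have h1 := Pool.Agent.K3h14.RS.t_DIV F L (bad ∪ bad' ∪ D.S)
  by_contra hcon
  push Not at hcon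
  apply h1
  have h2 : IsEmpty {v : HeightOneSpectrum (𝓞 F) // v ∉ bad ∪ bad' ∪ D.S ∧ SplitsIn L v} := by
    refine ⟨fun v => ?_⟩
    obtain ⟨v, hv, hs⟩ := v
    simp only [Finset.mem_union, not_or] at hv
    exact hcon v hv.1.1 (h v hv.1.2 hs {v} (Finset.disjoint_singleton_right.2 hv.2)
      (Finset.mem_singleton_self v))
  exact summable_empty

/-- **The natural density.** -/
theorem natural_density [hG : IsGaloisGroup G F H] (D : RubinData F H G) :
    ∃ δ : ℚ, Tendsto (fun X : ℕ => (Nat.card {v : HeightOneSpectrum (𝓞 F) //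
        Ideal.absNorm v.asIdeal ≤ X ∧ D.Allowed {v} ∧ D.Rubin {v}} : ℝ) /
        Nat.card {v : HeightOneSpectrum (𝓞 F) // Ideal.absNorm v.asIdeal ≤ X})
        atTop (𝓝 (δ : ℝ)) ∧
      (0 < δ ↔ ∃ T, Disjoint D.S T ∧ D.Stark T) ∧
      (δ = 1 ↔ ∀ T, D.Allowed T → D.Rubin T) := by
  classical
  obtain ⟨L, i1, i2, i3, bad, hgal, hbad, hL⟩ := frobenian D
  let 𝒞 : Set (L ≃ₐ[F] L) := {Φ | ∃ v, v ∉ bad ∧ HasFrob Φ v ∧ D.Rubin {v}}
  have h𝒞 : ∀ Φ ∈ 𝒞, ∀ Ψ : L ≃ₐ[F] L, Ψ * Φ * Ψ⁻¹ ∈ 𝒞 := by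
    rintro Φ ⟨v, hv, hΦ, hR⟩ Ψ
    exact ⟨v, hv, hasFrob_conj hΦ Ψ, hR⟩
  have hP : ∀ v, v ∉ bad → ∀ Φ : L ≃ₐ[F] L, HasFrob Φ v →
      ((D.Allowed {v} ∧ D.Rubin {v}) ↔ Φ ∈ 𝒞) := by
    intro v hv Φ hΦ
    constructor
    · rintro ⟨-, hR⟩
      exact ⟨v, hv, hΦ, hR⟩
    · rintro ⟨v', hv', hΦ', hR⟩
      exact ⟨hbad v hv, (hL {v'} {v} (Finset.disjoint_singleton_right.2 hv')
        (Finset.disjoint_singleton_right.2 hv) (sameFrob_singleton hΦ' hΦ)).1 hR⟩
  have h1 := cheb_dens 𝒞 h𝒞 (fun v => D.Allowed {v} ∧ D.Rubin {v}) bad hP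
  have hpos : 0 < Nat.card (L ≃ₐ[F] L) := Nat.card_pos
  refine ⟨(𝒞.ncard : ℚ) / (Nat.card (L ≃ₐ[F] L) : ℚ), ?_, ?_, ?_⟩
  · have h2 := ratio_tendsto h1
    push_cast
    exact h2
  · constructor
    · intro h
      have h2 : 𝒞.Nonempty := by
        by_contra h3
        rw [Set.not_nonempty_iff_eq_empty] at h3
        rw [h3, Set.ncard_empty, Nat.cast_zero, zero_div] at h
        exact lt_irrefl _ h
      obtain ⟨Φ, v, hv, -, u, e, -, s⟩ := h2
      exact ⟨{v}, (hbad v hv).1, u, e, s⟩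
    · intro h
      obtain ⟨v, hv, hR⟩ := exists_good_prime D h bad
      obtain ⟨Φ, hΦ⟩ := exists_hasFrob F L v
      have h2 : 0 < 𝒞.ncard := (Set.ncard_pos (Set.toFinite _)).2 ⟨Φ, v, hv, hΦ, hR⟩
      positivity
  · constructor
    · intro h
      have h2 : 𝒞 = Set.univ := by
        have h3 : (𝒞.ncard : ℚ) = Nat.card (L ≃ₐ[F] L) := by
          rwa [div_eq_one_iff_eq (by positivity)] at h
        have h4 : 𝒞.ncard = (Set.univ : Set (L ≃ₐ[F] L)).ncard := by
          rw [Set.ncard_univ]; exact_mod_cast h3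
        exact Set.eq_of_subset_of_ncard_le (Set.subset_univ _) h4.ge (Set.toFinite _)
      rcases dich D with h3 | h3
      · exact h3
      · exfalso
        obtain ⟨v, ⟨-, hv⟩, hvb⟩ := posProportion_exists h3 bad
        obtain ⟨Φ, hΦ⟩ := exists_hasFrob F L v
        have h4 : Φ ∈ 𝒞 := by rw [h2]; exact Set.mem_univ _
        exact hv ((hP v hvb Φ hΦ).2 h4).2
    · intro h
      have h2 : 𝒞 = Set.univ := by
        rw [Set.eq_univ_iff_forall]
        intro Φ
        obtain ⟨v, hv, hΦ⟩ := exists_prime F L Φ bad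
        exact ⟨v, hv, hΦ, h _ (hbad v hv)⟩
      rw [h2, Set.ncard_univ, div_self (by positivity)]

end

end Pool.Agent.U360.RS
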