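import Pool.Agent.K3h66.RS.MonoAlg
import Pool.Agent.K3h73.RS.Lam
import Pool.Agent.K3h12.RS.Ext
import Pool.Agent.K3h24.RS.Det
import Pool.Agent.K3h44.RS.Dlog
import Pool.Agent.K3h25.RS.Trans

/-!
# From `T₁` to larger sets `T`
-/

set_option autoImplicit false
set_option linter.unusedSectionVars false

open NumberField IsDedekindDomain Filter Topology

noncomputable section

namespace Pool.Agent.U360.RS

open Pool.Agent.K3h30.RS Pool.Agent.K3h66.RS

variable {F H G : Type} [Field F] [NumberField F] [Field H] [NumberField H] [Algebra F H]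
  [CommGroup G] [Finite G] [MulSemiringAction G H]

/-- the `S`-units congruent to one modulo `T₁` -/
abbrev UT (D : RubinData F H G) (T₁ : Finset (HeightOneSpectrum (𝓞 F))) : Subgroup Hˣ :=
  unitGroup (H := H) (D.S : Set (HeightOneSpectrum (𝓞 F)))
    (T₁ : Set (HeightOneSpectrum (𝓞 F)))

theorem mem_UT (D : RubinData F H G) (T₁ : Finset (HeightOneSpectrum (𝓞 F))) {x : Hˣ}
    (hx : x ∈ US D)
    (h : ∀ v ∈ T₁, ∀ w : HeightOneSpectrum (𝓞 H), Above {v} w →
      w.valuation H ((x : H) - 1) < 1) : x ∈ UT D T₁ := by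
  refine ⟨hx.1, fun w hw => ?_⟩
  obtain ⟨v', h1, h2⟩ := above_mem hw
  exact h v' (Finset.mem_coe.1 h1) w h2

theorem UT_le (D : RubinData F H G) (T₁ : Finset (HeightOneSpectrum (𝓞 F))) : UT D T₁ ≤ US D :=
  fun _ hx => mem_US_of_mem D T₁ hx

theorem monoT (hL : S_LAM) (hE : S_EXT) (hDF : S_DETF) (hD : S_DLOG) (hF : S_FROBU)
    (hT : S_TRANS) (hO : S_OVER) [hG : IsGaloisGroup G F H] (D : RubinData F H G)
    (U : Subgroup Hˣ) (hU : U ≤ unitGroup (H := H) (D.S : Set (HeightOneSpectrum (𝓞 F))) ∅)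
    (u : Wedge G D.r U) (T₁ : Finset (HeightOneSpectrum (𝓞 F))) (T : Finset (HeightOneSpectrum (𝓞 F)))
    (hvT : T₁ ⊆ T) (hdis : Disjoint D.S T)
    (htor : ∀ x : Hˣ, x ∈ D.U T₁ → IsOfFinOrder x → x = 1) (hint : IntAt D hU u T₁) :
    IntAt D hU u T := by
  classical
  intro f hfe hfi
  letI i1 := actionA (H := H) (G := G) hT (D.S : Set (HeightOneSpectrum (𝓞 F))) ∅
  letI i2 := actionA (H := H) (G := G) hT (D.S : Set (HeightOneSpectrum (𝓞 F)))
    (T₁ : Set (HeightOneSpectrum (𝓞 F)))
  have hfgA : AddGroup.FG (Additive (US D)) := fgA hO D.S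
  -- the inclusion
  let i : Additive (UT D T₁) →+ Additive (US D) :=
    MonoidHom.toAdditive (Subgroup.inclusion (UT_le D T₁))
  have hiv : ∀ c : Additive (UT D T₁), ((Additive.toMul (i c) : US D) : Hˣ) =
      ((Additive.toMul c : UT D T₁) : Hˣ) := fun c => rfl
  have hinj : Function.Injective i := by
    intro a b h
    apply Additive.toMul.injective
    apply Subtype.ext
    rw [← hiv a, ← hiv b, h]
  have hfgC : AddGroup.FG (Additive (UT D T₁)) := by
    have h0 : Module.Finite ℤ (Additive (US D)) := Module.Finite.iff_addGroup_fg.2 hfgA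
    have h1 : Module.Finite ℤ (Additive (UT D T₁)) :=
      Module.Finite.of_injective i.toIntLinearMap hinj
    exact Module.Finite.iff_addGroup_fg.1 h1
  have hi : ∀ (γ : G) (c : Additive (UT D T₁)), i (γ • c) = γ • i c := fun γ c => rfl
  have htor' : ∀ c : Additive (UT D T₁), IsOfFinAddOrder c → c = 0 := by
    intro c hc
    obtain ⟨n, hn, h1⟩ := isOfFinAddOrder_iff_nsmul_eq_zero.1 hc
    have h2 : ((Additive.toMul c : UT D T₁) : Hˣ) ^ n = 1 := by
      have := congrArg (fun z : Additive (UT D T₁) => ((Additive.toMul z : UT D T₁) : Hˣ)) h1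
      exact this
    have h3 := htor _ (Additive.toMul c : UT D T₁).2 (isOfFinOrder_iff_pow_eq_one.2 ⟨n, hn, h2⟩)
    apply Additive.toMul.injective
    exact Subtype.ext h3
  have hnot : ∀ t ∈ T, t ∉ D.S := fun t ht h => (Finset.disjoint_left.1 hdis h) ht
  -- the exponent at `T₁`
  choose χv m₀' hm₀' hmv _ hkv _ using fun t : {t // t ∈ T₁} =>
    exists_char (G := G) hD hF hT hO D.S t.1 (hnot t.1 (hvT t.2)) (D.σ t.1)
      (D.frob t.1 (hnot t.1 (hvT t.2)))
  obtain ⟨m₀, hm₀e⟩ : ∃ m₀, m₀ = ∏ t, m₀' t := ⟨_, rfl⟩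
  have hm₀ : 0 < m₀ := by
    rw [hm₀e]
    exact Finset.prod_pos fun t _ => hm₀' t
  have hpow : ∀ x : US D, ((x ^ m₀ : US D) : Hˣ) ∈ UT D T₁ := by
    intro x
    refine mem_UT D T₁ (x ^ m₀).2 fun v hv => (hkv ⟨v, hv⟩ (x ^ m₀)).1 fun γ => ?_
    rw [ofMul_pow, smul_comm, map_nsmul]
    obtain ⟨k, hk⟩ := Finset.dvd_prod_of_mem m₀' (Finset.mem_univ (⟨v, hv⟩ : {t // t ∈ T₁}))
    rw [hm₀e, hk, mul_comm, mul_smul, hmv, smul_zero]
  let κ : Additive (US D) →+ Additive (UT D T₁) := AddMonoidHom.mk'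
    (fun a => Additive.ofMul ⟨(((Additive.toMul a : US D) ^ m₀ : US D) : Hˣ),
      hpow (Additive.toMul a)⟩) (by
    intro a b
    apply Additive.toMul.injective
    apply Subtype.ext
    change ((((Additive.toMul (a + b) : US D) ^ m₀ : US D) : Hˣ)) =
      (((Additive.toMul a : US D) ^ m₀ : US D) : Hˣ) * (((Additive.toMul b : US D) ^ m₀ : US D) : Hˣ)
    rw [toMul_add, mul_pow]
    rfl)
  have hκv : ∀ a : Additive (US D), ((Additive.toMul (κ a) : UT D T₁) : Hˣ) =
      ((Additive.toMul a : US D) : Hˣ) ^ m₀ := fun a => rfl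
  have hκ : ∀ (γ : G) (a : Additive (US D)), κ (γ • a) = γ • κ a := by
    intro γ a
    apply Additive.toMul.injective
    apply Subtype.ext
    change (act γ ((Additive.toMul a : US D) : Hˣ)) ^ m₀ =
      act γ (((Additive.toMul a : US D) : Hˣ) ^ m₀)
    rw [act_pow]
  have hiκ : ∀ a, i (κ a) = m₀ • a := by
    intro a
    apply Additive.toMul.injective
    apply Subtype.ext
    rfl
  have hκi : ∀ c, κ (i c) = m₀ • c := by
    intro c
    apply Additive.toMul.injective
    apply Subtype.ext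
    rfl
  -- the characters at the other primes of `T`
  have hnot' : ∀ t : {t // t ∈ T \ T₁}, t.1 ∉ D.S := fun t =>
    hnot t.1 (Finset.mem_sdiff.1 t.2).1
  choose χ m hm0 hm hfrob hker hpow' using fun t : {t // t ∈ T \ T₁} =>
    exists_char (G := G) hD hF hT hO D.S t.1 (hnot' t) (D.σ t.1) (D.frob t.1 (hnot' t))
  have hf1 : ∀ j (γ : G) (a : Additive (US D)), f j (γ • a) = MonoidAlgebra.single γ 1 * f j a :=
    fun j γ a => hfe j γ (Additive.toMul a) (Additive.toMul (γ • a)) rfl
  have hf2 : ∀ j (c : Additive (UT D T₁)), (∀ t (γ : G), χ t (γ • i c) = 0) →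
      f j (i c) ∈ (toQ (G := G)).range := by
    intro j c hc
    refine hfi j (Additive.toMul (i c)) ?_
    refine ⟨(Additive.toMul c : UT D T₁).2.1, fun w hw => ?_⟩
    obtain ⟨t, ht, htw⟩ := above_mem hw
    by_cases htv : t ∈ T₁
    · exact (Additive.toMul c : UT D T₁).2.2 w ((above_iff htw).2 (Finset.mem_coe.2 htv))
    · exact (hker ⟨t, Finset.mem_sdiff.2 ⟨Finset.mem_coe.1 ht, htv⟩⟩ (Additive.toMul (i c))).1
        (fun γ => hc _ γ) w htw
  have hk := key hL hE hDF htor' i hi κ m₀ hm₀ hκ hiκ hκi {t // t ∈ T \ T₁}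
    (fun t => Ideal.absNorm t.1.asIdeal) (fun t => D.σ t.1) χ m hm0 hm hfrob D.r f hf1 hf2
  -- the evaluation
  let pt : Fin u.n → Fin D.r → Additive (US D) := fun k j =>
    Additive.ofMul ⟨(u.x k j : Hˣ), hU (u.x k j).2⟩
  let N : Submodule (toQ (G := G)).range ((Fin D.r → Additive (US D)) → MonoidAlgebra ℚ G) :=
    { carrier := {h | D.delta T₁ * ∑ k, u.c k * h (pt k) ∈ (toQ (G := G)).range}
      add_mem' := by
        intro g h hg hh
        change D.delta T₁ * ∑ k, u.c k * (g (pt k) + h (pt k)) ∈ (toQ (G := G)).range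
        have : D.delta T₁ * ∑ k, u.c k * (g (pt k) + h (pt k)) =
            D.delta T₁ * ∑ k, u.c k * g (pt k) + D.delta T₁ * ∑ k, u.c k * h (pt k) := by
          rw [← mul_add, ← Finset.sum_add_distrib]
          simp only [mul_add]
        rw [this]
        exact add_mem hg hh
      zero_mem' := by
        change D.delta T₁ * ∑ k, u.c k * (0 : MonoidAlgebra ℚ G) ∈ (toQ (G := G)).range
        simp
      smul_mem' := by
        intro z h hh
        change D.delta T₁ * ∑ k, u.c k * ((z : MonoidAlgebra ℚ G) * h (pt k)) ∈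
          (toQ (G := G)).range
        have : D.delta T₁ * ∑ k, u.c k * ((z : MonoidAlgebra ℚ G) * h (pt k)) =
            z * (D.delta T₁ * ∑ k, u.c k * h (pt k)) := by
          have e1 : ∑ k, u.c k * ((z : MonoidAlgebra ℚ G) * h (pt k)) =
              (z : MonoidAlgebra ℚ G) * ∑ k, u.c k * h (pt k) := by
            rw [Finset.mul_sum]
            exact Finset.sum_congr rfl fun k _ => by ring
          rw [e1]
          ring
        rw [this]
        exact mul_mem z.2 hh }
  have hle : Submodule.span (toQ (G := G)).range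
      {h : (Fin D.r → Additive (US D)) → MonoidAlgebra ℚ G |
        ∃ y : Fin D.r → Additive (US D) → MonoidAlgebra ℚ G,
          (∀ j, y j ∈ MM (G := G) i) ∧ h = fun x => Matrix.det (Matrix.of fun a b => y a (x b))} ≤
      N := by
    rw [Submodule.span_le]
    rintro _ ⟨y, hy, rfl⟩
    choose g hg1 hg2 hg3 using hy
    have h1 := hint g (fun j γ x y hxy => ?_) (fun j x hx => ?_)
    · have h2 : wval D hU g u = ∑ k, u.c k *
          (fun x : Fin D.r → Additive (US D) => Matrix.det (Matrix.of fun a b => y a (x b))) (pt k) := by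
        unfold wval
        refine Finset.sum_congr rfl fun k _ => ?_
        congr 2
        refine Matrix.ext fun a b => ?_
        change g a (pt k b) = y a (pt k b)
        rw [hg3 a]
      rw [h2] at h1
      exact h1
    · have h3 : Additive.ofMul y = γ • Additive.ofMul x := by
        apply Additive.toMul.injective
        exact Subtype.ext hxy
      rw [h3]
      exact hg1 j γ _
    · exact hg2 j (Additive.ofMul ⟨(x : Hˣ), hx⟩)
  have hN := hle hk
  have hN' : D.delta T₁ * ∑ k, u.c k * ((∏ t : {t // t ∈ T \ T₁},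
      (1 - MonoidAlgebra.single (D.σ t.1)⁻¹ (Ideal.absNorm t.1.asIdeal : ℚ))) *
      Matrix.det (Matrix.of fun a b => f a (pt k b))) ∈ (toQ (G := G)).range := hN
  have h5 : D.delta T * wval D hU f u = D.delta T₁ * ∑ k, u.c k *
      ((∏ t : {t // t ∈ T \ T₁},
      (1 - MonoidAlgebra.single (D.σ t.1)⁻¹ (Ideal.absNorm t.1.asIdeal : ℚ))) *
      Matrix.det (Matrix.of fun a b => f a (pt k b))) := by
    have h6 : D.delta T = D.delta T₁ * ∏ t : {t // t ∈ T \ T₁},
        (1 - MonoidAlgebra.single (D.σ t.1)⁻¹ (Ideal.absNorm t.1.asIdeal : ℚ)) := by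
      unfold RubinData.delta
      rw [Finset.prod_coe_sort (T \ T₁) (fun t =>
        (1 - MonoidAlgebra.single (D.σ t)⁻¹ (Ideal.absNorm t.asIdeal : ℚ) : MonoidAlgebra ℚ G)),
        mul_comm, Finset.prod_sdiff hvT]
    rw [h6, mul_assoc]
    congr 1
    unfold wval
    rw [Finset.mul_sum]
    refine Finset.sum_congr rfl fun k _ => ?_
    rw [mul_left_comm]
  rw [h5]
  exact hN'

end Pool.Agent.U360.RS
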