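import Pool.Agent.U360.RS.Main
import Pool.Agent.U360.RS.MonoT

/-!
# The sets `T` for which Rubin's conjecture holds: a finite description
-/

set_option autoImplicit false
set_option linter.unusedSectionVars false

open NumberField IsDedekindDomain Filter Topology

noncomputable section

namespace Pool.Agent.U360.RS

open Pool.Agent.K3h30.RS Pool.Agent.K3h43.RS Pool.Agent.K3h8.RS

theorem EmbFrob.exists_image {F L : Type} [Field F] [NumberField F] [Field L] [NumberField L]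
    [Algebra F L] {M T : Finset (HeightOneSpectrum (𝓞 F))} (h : EmbFrob L M T) :
    ∃ T₀, T₀ ⊆ T ∧ SameFrob L M T₀ := by
  classical
  obtain ⟨e, he⟩ := h
  have hmem : ∀ t : M, (e t : HeightOneSpectrum (𝓞 F)) ∈
      Finset.univ.image (fun t : M => (e t : HeightOneSpectrum (𝓞 F))) := fun t =>
    Finset.mem_image_of_mem _ (Finset.mem_univ t)
  refine ⟨Finset.univ.image (fun t : M => (e t : HeightOneSpectrum (𝓞 F))), ?_, ?_⟩
  · intro x hx
    obtain ⟨t, -, rfl⟩ := Finset.mem_image.1 hx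
    exact (e t).2
  · refine ⟨Equiv.ofBijective (fun t : M => ⟨(e t : HeightOneSpectrum (𝓞 F)), hmem t⟩)
      ⟨?_, ?_⟩, he⟩
    · intro a b hab
      have h1 := congrArg Subtype.val hab
      exact e.injective (Subtype.ext h1)
    · rintro ⟨x, hx⟩
      obtain ⟨t, -, rfl⟩ := Finset.mem_image.1 hx
      exact ⟨t, rfl⟩

theorem EmbFrob.of_subset {F L : Type} [Field F] [NumberField F] [Field L] [NumberField L]
    [Algebra F L] [IsGalois F L] {M T : Finset (HeightOneSpectrum (𝓞 F))} (h : M ⊆ T) :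
    EmbFrob L M T := by
  refine ⟨⟨fun t => ⟨t, h t.2⟩, fun a b hab => ?_⟩, fun t => ?_⟩
  · have h1 := congrArg Subtype.val hab
    exact Subtype.ext h1
  · obtain ⟨Φ, hΦ⟩ := exists_hasFrob F L t
    exact ⟨Φ, hΦ, hΦ⟩

/-- the type of a prime ideal -/
def ftype {F : Type} (L : Type) [Field F] [NumberField F] [Field L] [NumberField L]
    [Algebra F L] (v : HeightOneSpectrum (𝓞 F)) : Set (L ≃ₐ[F] L) := {Φ | HasFrob Φ v}

/-- the number of the elements of a given type -/
def fcount {F : Type} (L : Type) [Field F] [NumberField F] [Field L] [NumberField L]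
    [Algebra F L] (T : Finset (HeightOneSpectrum (𝓞 F))) (k : Set (L ≃ₐ[F] L)) : ℕ :=
  Nat.card {x : T // ftype L (x : HeightOneSpectrum (𝓞 F)) = k}

theorem embFrob_of_le {F L : Type} [Field F] [NumberField F] [Field L] [NumberField L]
    [Algebra F L] [IsGalois F L] {M T : Finset (HeightOneSpectrum (𝓞 F))}
    (h : fcount L M ≤ fcount L T) : EmbFrob L M T := by
  classical
  have h1 : ∀ k : Set (L ≃ₐ[F] L), Nonempty
      ({x : M // ftype L (x : HeightOneSpectrum (𝓞 F)) = k} ↪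
        {x : T // ftype L (x : HeightOneSpectrum (𝓞 F)) = k}) := by
    intro k
    refine Function.Embedding.nonempty_of_card_le ?_
    have h2 := h k
    unfold fcount at h2
    rwa [Nat.card_eq_fintype_card, Nat.card_eq_fintype_card] at h2
  let emb := fun k => (h1 k).some
  refine ⟨(Equiv.sigmaFiberEquiv (fun x : M => ftype L (x : HeightOneSpectrum
    (𝓞 F)))).symm.toEmbedding.trans (((Function.Embedding.refl _).sigmaMap emb).trans
    (Equiv.sigmaFiberEquiv (fun x : T => ftype L (x : HeightOneSpectrum (𝓞 F)))).toEmbedding),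
    fun t => ?_⟩
  obtain ⟨Φ, hΦ⟩ := exists_hasFrob F L t
  refine ⟨Φ, hΦ, ?_⟩
  have h2 : ftype L ((emb (ftype L (t : HeightOneSpectrum (𝓞 F))) ⟨t, rfl⟩).1 :
      HeightOneSpectrum (𝓞 F)) = ftype L (t : HeightOneSpectrum (𝓞 F)) :=
    (emb (ftype L (t : HeightOneSpectrum (𝓞 F))) ⟨t, rfl⟩).2
  have h3 : Φ ∈ ftype L ((emb (ftype L (t : HeightOneSpectrum (𝓞 F))) ⟨t, rfl⟩).1 :
      HeightOneSpectrum (𝓞 F)) := by
    rw [h2]; exact hΦ
  exact h3

variable {F H G : Type} [Field F] [NumberField F] [Field H] [NumberField H] [Algebra F H]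
  [CommGroup G] [Finite G] [MulSemiringAction G H]

/-- monotonicity -/
theorem rubin_mono [hG : IsGaloisGroup G F H] (D : RubinData F H G)
    {T₁ T : Finset (HeightOneSpectrum (𝓞 F))} (hsub : T₁ ⊆ T) (hdis : Disjoint D.S T)
    {v : HeightOneSpectrum (𝓞 F)} (hv : v ∈ T₁)
    (hvn : Module.finrank ℚ F + 1 < ringChar (𝓞 F ⧸ v.asIdeal)) (h : D.Rubin T₁) :
    D.Rubin T := by
  classical
  obtain ⟨u, e, hint, s⟩ := h
  obtain ⟨u₀, e₀, s₀⟩ := stark_all D ⟨u, e, s⟩ ∅ (Finset.disjoint_empty_right _)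
  have h1 : IntAt D (U_le D ∅) u₀ T₁ :=
    intAt_of_rubin t_UNIQ' D (U_le D ∅) u₀ e₀ s₀ T₁ ⟨u, e, hint, s⟩
  have hvS : v ∉ D.S := fun hh => (Finset.disjoint_left.1 hdis hh) (hsub hv)
  have htor := Pool.Agent.K3h23.RS.t_TORS Pool.Agent.K3h36.RS.t_NOZETA F H G D v hvS hvn
  have h2 : IntAt D (U_le D ∅) u₀ T := by
    refine monoT Pool.Agent.K3h73.RS.t_LAM Pool.Agent.K3h12.RSE.t_EXT
      Pool.Agent.K3h24.RS.Det.t_DETF Pool.Agent.K3h44.RS.t_DLOG Pool.Agent.K3h44.RS.t_FROBU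
      Pool.Agent.K3h25.RS.t_TRANS Pool.Agent.K3h25.RS.t_OVER D (D.U ∅) (U_le D ∅) u₀ T₁ T hsub
      hdis (fun x hx hx' => htor x ⟨hx.1, fun w hw => hx.2 w ?_⟩ hx') h1
    obtain ⟨v', hv', hw'⟩ := above_mem hw
    rw [Finset.coe_singleton, Set.mem_singleton_iff] at hv'
    rw [hv'] at hw'
    exact (above_iff hw').2 (Finset.mem_coe.2 hv)
  exact rubin_of_intAt D u₀ e₀ s₀ T hdis h2

/-- **The finite description.** -/
theorem finite_list [hG : IsGaloisGroup G F H] (D : RubinData F H G) :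
    ∃ (L : Type) (_ : Field L) (_ : NumberField L) (_ : Algebra F L)
      (bad : Finset (HeightOneSpectrum (𝓞 F))), IsGalois F L ∧
      (∀ v, v ∉ bad → D.Allowed {v}) ∧
      ∃ 𝓜 : Finset (Finset (HeightOneSpectrum (𝓞 F))),
        (∀ M ∈ 𝓜, M.Nonempty ∧ Disjoint bad M) ∧
        ∀ T : Finset (HeightOneSpectrum (𝓞 F)), T.Nonempty → Disjoint bad T →
          (D.Rubin T ↔ ∃ M ∈ 𝓜, EmbFrob L M T) := by
  classical
  obtain ⟨L, i1, i2, i3, bad, hgal, hbad, hL⟩ := frobenian D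
  refine ⟨L, i1, i2, i3, bad, hgal, hbad, ?_⟩
  -- upward closed
  have hup : ∀ M T : Finset (HeightOneSpectrum (𝓞 F)), M.Nonempty → Disjoint bad M →
      Disjoint bad T → EmbFrob L M T → D.Rubin M → D.Rubin T := by
    intro M T hM hbM hbT hemb hR
    obtain ⟨T₀, hT₀, hsame⟩ := hemb.exists_image
    have hbT₀ : Disjoint bad T₀ := Finset.disjoint_of_subset_right hT₀ hbT
    have h1 : D.Rubin T₀ := (hL M T₀ hbM hbT₀ hsame).1 hR
    have hne : T₀.Nonempty := by
      obtain ⟨e, -⟩ := hsame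
      obtain ⟨m, hm⟩ := hM
      exact ⟨e ⟨m, hm⟩, (e ⟨m, hm⟩).2⟩
    obtain ⟨v, hv⟩ := hne
    have hvb : v ∉ bad := fun hh => (Finset.disjoint_left.1 hbT₀ hh) hv
    have hall := hbad v hvb
    have hdis : Disjoint D.S T := by
      rw [Finset.disjoint_left]
      intro x hx hxT
      have h2 := (hbad x fun hh => (Finset.disjoint_left.1 hbT hh) hxT).1
      exact (Finset.disjoint_singleton_right.1 h2) hx
    refine rubin_mono D hT₀ hdis hv ?_ h1
    rcases hall.2 with ⟨x, hx, y, hy, hxy⟩ | ⟨x, hx, hx'⟩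
    · rw [Finset.mem_singleton] at hx hy
      rw [hx, hy] at hxy
      exact absurd rfl hxy
    · rw [Finset.mem_singleton] at hx
      rwa [hx] at hx'
  -- the minimal elements
  let P : (Set (L ≃ₐ[F] L) → ℕ) → Prop := fun n => ∃ T : Finset (HeightOneSpectrum (𝓞 F)),
    T.Nonempty ∧ Disjoint bad T ∧ D.Rubin T ∧ fcount L T = n
  have hfin : {n | Minimal P n}.Finite :=
    (setOfPred_minimal_antichain P).finite_of_partiallyWellOrderedOn
      (Set.isPWO_of_wellQuasiOrderedLE _)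
  choose! g hg using fun n (hn : P n) => hn
  refine ⟨hfin.toFinset.image g, ?_, ?_⟩
  · intro M hM
    obtain ⟨n, hn, rfl⟩ := Finset.mem_image.1 hM
    rw [Set.Finite.mem_toFinset] at hn
    have h1 := hg n hn.1
    exact ⟨h1.1, h1.2.1⟩
  · intro T hT hbT
    constructor
    · intro hR
      obtain ⟨n, hn, hmin⟩ := exists_minimal_le_of_wellFoundedLT P (fcount L T)
        ⟨T, hT, hbT, hR, rfl⟩
      refine ⟨g n, Finset.mem_image_of_mem g ((Set.Finite.mem_toFinset hfin).2 hmin), ?_⟩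
      have h1 := hg n hmin.1
      refine embFrob_of_le ?_
      rw [h1.2.2.2]
      exact hn
    · rintro ⟨M, hM, hemb⟩
      obtain ⟨n, hn, rfl⟩ := Finset.mem_image.1 hM
      rw [Set.Finite.mem_toFinset] at hn
      have h1 := hg n hn.1
      exact hup _ T h1.1 h1.2.1 hbT hemb h1.2.2.1

end Pool.Agent.U360.RS
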