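import Pool.Agent.U360.RS.Pair

/-!
# Rubin's conjecture depends only on Frobenius classes in one finite extension
-/

set_option autoImplicit false
set_option linter.unusedSectionVars false

open NumberField IsDedekindDomain Polynomial

noncomputable section

namespace Pool.Agent.U360.RS

open Pool.Agent.K3h30.RS Pool.Agent.K3h43.RS Pool.Agent.K3h8.RS

variable {F H G : Type} [Field F] [NumberField F] [Field H] [NumberField H] [Algebra F H]
  [CommGroup G] [Finite G] [MulSemiringAction G H]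

/-- Frobenius at roots of unity -/
theorem frob_root {L : Type} [Field L] [NumberField L] [Algebra F L]
    (P : HeightOneSpectrum (𝓞 L)) (Φ : L ≃ₐ[F] L) (q N : ℕ) (hN : 0 < N)
    (hΦ : ∀ x : 𝓞 L, P.valuation L (Φ (x : L) - (x : L) ^ q) < 1)
    (hP : P.valuation L (N : L) = 1) (ζ : Lˣ) (hζ : ζ ^ N = 1) :
    Units.map ((Φ : L →+* L) : L →* L) ζ = ζ ^ q := by
  have h1 := frobK P (Φ : L →+* L) q hΦ ζ (root_unit P N hN ζ hζ)
  have h2 : Units.map ((Φ : L →+* L) : L →* L) ζ * (ζ ^ q)⁻¹ = 1 := by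
    refine root_eq_one P N hP _ ?_ h1
    rw [mul_pow, ← map_pow, hζ, map_one, one_mul, inv_pow, ← pow_mul, mul_comm q, pow_mul, hζ,
      one_pow, inv_one]
  exact mul_inv_eq_one.1 h2

theorem val_mul_one {v : HeightOneSpectrum (𝓞 F)} {w N : ℕ}
    (hv : v.valuation F ((w * N : ℕ) : F) = 1) : v.valuation F (N : F) = 1 := by
  rw [Nat.cast_mul, map_mul] at hv
  have h1 : v.valuation F (w : F) ≤ 1 := by
    have e : ((w : 𝓞 F) : F) = (w : F) := map_natCast (algebraMap (𝓞 F) F) w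
    rw [← e]
    exact v.valuation_le_one (K := F) (w : 𝓞 F)
  have h2 : v.valuation F (N : F) ≤ 1 := by
    have e : ((N : 𝓞 F) : F) = (N : F) := map_natCast (algebraMap (𝓞 F) F) N
    rw [← e]
    exact v.valuation_le_one (K := F) (N : 𝓞 F)
  by_contra h3
  have h4 : v.valuation F (N : F) < 1 := lt_of_le_of_ne h2 h3
  have h5 : v.valuation F (w : F) * v.valuation F (N : F) < 1 :=
    lt_of_le_of_lt (mul_le_of_le_one_left' h1) h4
  exact h5.ne hv

theorem mem_U (D : RubinData F H G) (T : Finset (HeightOneSpectrum (𝓞 F))) (x : US D) :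
    (x : Hˣ) ∈ D.U T ↔ ∀ t ∈ T, ∀ u : HeightOneSpectrum (𝓞 H), Above {t} u →
      u.valuation H (((x : Hˣ) : H) - 1) < 1 := by
  constructor
  · intro h t ht u hu
    exact h.2 u ((above_iff hu).2 (Finset.mem_coe.2 ht))
  · intro h
    refine ⟨x.2.1, fun u hu => ?_⟩
    obtain ⟨v, hv, hvu⟩ := above_mem hu
    exact h v (Finset.mem_coe.1 hv) u hvu

variable (D : RubinData F H G) {L : Type} [Field L] [NumberField L] [Algebra H L] [Algebra F L]
  [IsScalarTower F H L]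

/-- the norms agree modulo `N` -/
theorem norm_cong [IsGaloisGroup G F H] (N : ℕ) (hN : 0 < N) (ζ : Lˣ) (hζ : orderOf ζ = N)
    (Φ : L ≃ₐ[F] L) (v v' : HeightOneSpectrum (𝓞 F)) (hvS : v ∉ D.S) (hvS' : v' ∉ D.S)
    (hv : v.valuation F (N : F) = 1) (hv' : v'.valuation F (N : F) = 1)
    (hΦ : HasFrob Φ v) (hΦ' : HasFrob Φ v') :
    ∃ z : ℤ, (Ideal.absNorm v.asIdeal : ℤ) - (Ideal.absNorm v'.asIdeal : ℤ) = N * z := by
  obtain ⟨P, u, hPu, hu, hPv, hΦv, hres⟩ := frob_data D Φ v hvS hΦ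
  obtain ⟨P', u', hPu', hu', hPv', hΦv', hres'⟩ := frob_data D Φ v' hvS' hΦ'
  have hP : P.valuation L (N : L) = 1 := by
    have h1 := val_eq v P hPv _ hv
    rwa [map_natCast] at h1
  have hP' : P'.valuation L (N : L) = 1 := by
    have h1 := val_eq v' P' hPv' _ hv'
    rwa [map_natCast] at h1
  have hζ1 : ζ ^ N = 1 := by rw [← hζ]; exact pow_orderOf_eq_one ζ
  have h1 := frob_root P Φ _ N hN hΦv hP ζ hζ1
  have h2 := frob_root P' Φ _ N hN hΦv' hP' ζ hζ1
  rw [h1] at h2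
  have h3 := pow_eq_pow_iff_modEq.mp h2.symm
  rw [hζ] at h3
  obtain ⟨z, hz⟩ := Nat.modEq_iff_dvd.1 h3
  exact ⟨z, hz⟩

/-- **Transfer of the integrality.** -/
theorem intAt_transfer [hG : IsGaloisGroup G F H] (N w N₀ : ℕ) (hNe : N = w ^ D.r * N₀)
    (hN₀ : 0 < N₀) (hw0 : 0 < w) {U₀ : Subgroup Hˣ} (h₀ : U₀ ≤ US D) (u₀ : Wedge G D.r U₀)
    (hN₀' : ∀ k, (N₀ : MonoidAlgebra ℚ G) * u₀.c k ∈ (toQ (G := G)).range)
    (hw : ∀ a : Additive (US D), IsOfFinAddOrder a → w • a = 0)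
    (hroot : ∀ x ∈ US D, ∃ y : Lˣ, y ^ N = Units.map (algebraMap H L : H →* L) x)
    (ζ : Lˣ) (hζ : orderOf ζ = N)
    (T : Finset (HeightOneSpectrum (𝓞 F)))
    [DecidableEq (HeightOneSpectrum (𝓞 F))]
    (τ : HeightOneSpectrum (𝓞 F) → HeightOneSpectrum (𝓞 F)) (hτ : Set.InjOn τ T)
    (hT : ∀ t ∈ T, t ∉ D.S ∧ τ t ∉ D.S ∧ t.valuation F ((w * N : ℕ) : F) = 1 ∧
      (τ t).valuation F ((w * N : ℕ) : F) = 1 ∧ ∃ Φ : L ≃ₐ[F] L, HasFrob Φ t ∧ HasFrob Φ (τ t))
    (h : IntAt D h₀ u₀ T) : IntAt D h₀ u₀ (T.image τ) := by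
  classical
  letI := actionA (H := H) (G := G) Pool.Agent.K3h25.RS.t_TRANS
      (D.S : Set (HeightOneSpectrum (𝓞 F))) ∅
  have hN : 0 < N := by rw [hNe]; positivity
  intro f' hf' hi'
  rcases T.eq_empty_or_nonempty with hTe | hTne
  · subst hTe
    exact h f' hf' hi'
  have hTne' : Nonempty T := ⟨⟨hTne.choose, hTne.choose_spec⟩⟩
  have hdata : ∀ t : T, _ := fun t : T => exists_pair D (L := L) N w hN hw0 hw hroot
    (hT t.1 t.2).2.2.2.2.choose t.1 (τ t.1) (hT t.1 t.2).1 (hT t.1 t.2).2.1 (hT t.1 t.2).2.2.1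
    (hT t.1 t.2).2.2.2.1 (hT t.1 t.2).2.2.2.2.choose_spec.1 (hT t.1 t.2).2.2.2.2.choose_spec.2
  choose hσ χ χ' lam lam' kap m hm0 hm hm' hker hker' hfr hfr' hlam hlam' hkap hkap' hE
    using hdata
  have hcong : ∀ t : T, ∃ z : ℤ, ((Ideal.absNorm t.1.asIdeal : ℕ) : ℤ) -
      (Ideal.absNorm (τ t.1).asIdeal : ℕ) = N * z := fun t =>
    norm_cong D (L := L) N hN ζ hζ (hT t.1 t.2).2.2.2.2.choose t.1 (τ t.1) (hT t.1 t.2).1
      (hT t.1 t.2).2.1 (val_mul_one (hT t.1 t.2).2.2.1) (val_mul_one (hT t.1 t.2).2.2.2.1)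
      (hT t.1 t.2).2.2.2.2.choose_spec.1 (hT t.1 t.2).2.2.2.2.choose_spec.2
  have hmm' : ∀ (t : T) (a : Additive (US D)), (∏ t : T, m t) • χ' t a = 0 := by
    intro t a
    obtain ⟨k, hk⟩ := Finset.dvd_prod_of_mem m (Finset.mem_univ t)
    rw [hk, mul_comm, mul_smul, hm', smul_zero]
  obtain ⟨f, hf, hfi, hfc⟩ := transfer (G := G) (A := Additive (US D)) (I := T) w N (∏ t : T, m t)
    (Finset.prod_pos fun t _ => hm0 t) (fun t => Ideal.absNorm t.1.asIdeal)
    (fun t => Ideal.absNorm (τ t.1).asIdeal) (fun t => D.σ t.1) χ χ' hmm' hfr hfr' lam lam' kap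
    hlam hlam' hkap hkap' hE hcong f' (fun i γ a => hf' i γ (Additive.toMul a)
      (Additive.toMul (γ • a)) rfl) (fun i a ha => by
        refine hi' i (Additive.toMul a) ?_
        rw [mem_U]
        intro t' ht' u hu
        obtain ⟨t, ht, rfl⟩ := Finset.mem_image.1 ht'
        exact (hker' ⟨t, ht⟩ (Additive.toMul a)).1 (ha ⟨t, ht⟩) u hu)
  have h1 := h f (fun i γ x y hxy => by
      have e : Additive.ofMul y = γ • Additive.ofMul x := by
        apply Additive.toMul.injective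
        apply Subtype.ext
        exact hxy
      rw [e, hf]) (fun i x hx => by
        refine hfi i (Additive.ofMul x) fun t γ => ?_
        rw [mem_U] at hx
        exact (hker t x).2 (hx t.1 t.2) γ)
  have hδ : D.delta T = ∏ t : T, (1 - MonoidAlgebra.single (D.σ t.1)⁻¹
      ((Ideal.absNorm t.1.asIdeal : ℕ) : ℚ)) := by
    unfold RubinData.delta
    exact (Finset.prod_coe_sort T (fun t => (1 -
      MonoidAlgebra.single (D.σ t)⁻¹ (Ideal.absNorm t.asIdeal : ℚ) : MonoidAlgebra ℚ G))).symm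
  have hδ' : D.delta (T.image τ) = ∏ t : T, (1 - MonoidAlgebra.single (D.σ t.1)⁻¹
      ((Ideal.absNorm (τ t.1).asIdeal : ℕ) : ℚ)) := by
    unfold RubinData.delta
    rw [Finset.prod_image hτ]
    rw [← Finset.prod_coe_sort T (fun t => (1 -
      MonoidAlgebra.single (D.σ (τ t))⁻¹ (Ideal.absNorm (τ t).asIdeal : ℚ) : MonoidAlgebra ℚ G))]
    refine Finset.prod_congr rfl fun t _ => ?_
    rw [hσ]
  choose z hz hz' using fun k : Fin u₀.n => hfc (fun j => Additive.ofMul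
    (⟨(u₀.x k j : Hˣ), h₀ (u₀.x k j).2⟩ : US D))
  have key : (N : MonoidAlgebra ℚ G) * (D.delta (T.image τ) * wval D h₀ f' u₀ -
      D.delta T * wval D h₀ f u₀) = (N : MonoidAlgebra ℚ G) *
        ∑ k, ((N₀ : MonoidAlgebra ℚ G) * u₀.c k) * z k := by
    unfold wval
    rw [Finset.mul_sum, Finset.mul_sum, ← Finset.sum_sub_distrib, Finset.mul_sum, Finset.mul_sum]
    refine Finset.sum_congr rfl fun k _ => ?_
    have h2 := hz' k
    rw [← hδ, ← hδ'] at h2
    have e : (N : MonoidAlgebra ℚ G) * (((N₀ : MonoidAlgebra ℚ G) * u₀.c k) * z k) =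
        ((N₀ : MonoidAlgebra ℚ G) * u₀.c k) * ((N : MonoidAlgebra ℚ G) * z k) := by ring
    rw [e, ← h2, hNe]
    push_cast
    ring
  have h3 := natCast_cancel hN key
  have h4 : D.delta (T.image τ) * wval D h₀ f' u₀ = D.delta T * wval D h₀ f u₀ +
      ∑ k, ((N₀ : MonoidAlgebra ℚ G) * u₀.c k) * z k := by
    rw [← h3]; ring
  rw [h4]
  exact add_mem h1 (sum_mem fun k _ => mul_mem (hN₀' k) (hz k))

end Pool.Agent.U360.RS
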