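import Pool.Agent.U360.RS.Ari

/-!
# The arithmetic data of two prime ideals with the same Frobenius automorphism, continued
-/

set_option autoImplicit false
set_option linter.unusedSectionVars false

open NumberField IsDedekindDomain Polynomial

noncomputable section

namespace Pool.Agent.U360.RS

open Pool.Agent.K3h30.RS Pool.Agent.K3h43.RS Pool.Agent.K3h8.RS

variable {F H G : Type} [Field F] [NumberField F] [Field H] [NumberField H] [Algebra F H]
  [CommGroup G] [Finite G] [MulSemiringAction G H]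

variable (D : RubinData F H G) {L : Type} [Field L] [NumberField L] [Algebra H L] [Algebra F L]
  [IsScalarTower F H L]

/-- the inclusion of the `S`-units in the group of the roots -/
def iotaU (L : Type) [Field L] [NumberField L] [Algebra H L] (N : ℕ) :
    Additive (US D) →+ Additive (Uhat D L N) where
  toFun a := Additive.ofMul ⟨Units.map (algebraMap H L : H →* L)
    ((Additive.toMul a : US D) : Hˣ), ⟨((Additive.toMul a : US D) : Hˣ) ^ N,
      pow_mem (Additive.toMul a).2 N, map_pow _ _ _⟩⟩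
  map_zero' := by
    apply Additive.toMul.injective
    apply Subtype.ext
    exact map_one (Units.map (algebraMap H L : H →* L))
  map_add' x y := by
    apply Additive.toMul.injective
    apply Subtype.ext
    exact map_mul (Units.map (algebraMap H L : H →* L)) _ _

/-- restriction of a character to the group of the roots -/
def resU {N : ℕ} {P : HeightOneSpectrum (𝓞 L)} (hle : Uhat D L N ≤ unitsAt P)
    (r : Additive (unitsAt P) →+ QZ) : Additive (Uhat D L N) →+ QZ :=
  r.comp (MonoidHom.toAdditive (Subgroup.inclusion hle))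

theorem resU_apply {N : ℕ} {P : HeightOneSpectrum (𝓞 L)} (hle : Uhat D L N ≤ unitsAt P)
    (r : Additive (unitsAt P) →+ QZ) (y : Additive (Uhat D L N)) :
    resU D hle r y = r (Additive.ofMul ⟨((Additive.toMul y : Uhat D L N) : Lˣ),
      hle (Additive.toMul y).2⟩) := rfl

/-- the Frobenius property of the restricted character -/
theorem resU_frob [IsGaloisGroup G F H] {N : ℕ} {P : HeightOneSpectrum (𝓞 L)}
    (hle : Uhat D L N ≤ unitsAt P) (r : Additive (unitsAt P) →+ QZ)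
    (hr : ∀ x : unitsAt P, r (Additive.ofMul x) = 0 ↔ P.valuation L (((x : Lˣ) : L) - 1) < 1)
    (Φ : L ≃ₐ[F] L) (q : ℕ) (hφ : ∀ x : 𝓞 L, P.valuation L (Φ (x : L) - (x : L) ^ q) < 1)
    (σ : G) (hres : ∀ x : H, Φ (algebraMap H L x) = algebraMap H L (σ • x))
    (y : Additive (Uhat D L N)) :
    resU D hle r (PhiU D N Φ σ hres y) = q • resU D hle r y := by
  have hy : ((Additive.toMul y : Uhat D L N) : Lˣ) ∈ unitsAt P := hle (Additive.toMul y).2
  have h1 := frobK P (Φ : L →+* L) q hφ _ hy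
  have hy2 : Units.map ((Φ : L →+* L) : L →* L) ((Additive.toMul y : Uhat D L N) : Lˣ) ∈
      unitsAt P := hle (Phi_mem D Φ σ hres (Additive.toMul y).2)
  have h2 : r (Additive.ofMul ((⟨_, hy2⟩ : unitsAt P) * ((⟨_, hy⟩ : unitsAt P) ^ q)⁻¹)) = 0 := by
    rw [hr]
    exact h1
  rw [ofMul_mul, ofMul_inv, ofMul_pow, map_add, map_neg, map_nsmul, ← sub_eq_add_neg,
    sub_eq_zero] at h2
  exact h2

/-- the kernel of the character and its conjugates -/
theorem ker_char [hG : IsGaloisGroup G F H] {N : ℕ} {P : HeightOneSpectrum (𝓞 L)}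
    (hle : Uhat D L N ≤ unitsAt P) (r : Additive (unitsAt P) →+ QZ)
    (hr : ∀ x : unitsAt P, r (Additive.ofMul x) = 0 ↔ P.valuation L (((x : Lˣ) : L) - 1) < 1)
    (v : HeightOneSpectrum (𝓞 F)) (u : HeightOneSpectrum (𝓞 H))
    (hu : P.asIdeal.comap (algebraMap (𝓞 H) (𝓞 L)) = u.asIdeal)
    (hv : u.asIdeal.comap (algebraMap (𝓞 F) (𝓞 H)) = v.asIdeal) (x : US D) :
    letI := actionA (H := H) (G := G) Pool.Agent.K3h25.RS.t_TRANS
      (D.S : Set (HeightOneSpectrum (𝓞 F))) ∅
    (∀ γ : G, resU D hle r (iotaU D L N (γ • Additive.ofMul x)) = 0) ↔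
      ∀ u : HeightOneSpectrum (𝓞 H), Above {v} u → u.valuation H (((x : Hˣ) : H) - 1) < 1 := by
  letI := actionA (H := H) (G := G) Pool.Agent.K3h25.RS.t_TRANS
      (D.S : Set (HeightOneSpectrum (𝓞 F))) ∅
  have key : ∀ γ : G, resU D hle r (iotaU D L N (γ • Additive.ofMul x)) = 0 ↔
      u.valuation H (γ • (((x : Hˣ) : H) - 1)) < 1 := by
    intro γ
    rw [resU_apply, hr, smul_sub, smul_one, ← val_lt_iff u P hu, map_sub (algebraMap H L),
      map_one (algebraMap H L)]
    exact Iff.rfl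
  have habove : Above {v} u := ⟨v, rfl, hv⟩
  obtain ⟨h1, h2⟩ := Pool.Agent.K3h25.RS.t_TRANS F H G v u habove
  constructor
  · intro h u' hu'
    obtain ⟨γ, hγ⟩ := h2 u' hu'
    rw [hγ]
    exact (key γ).1 (h γ)
  · intro h γ
    rw [key]
    obtain ⟨w', hw', hγ⟩ := h1 γ
    rw [← hγ]
    exact h w' hw'

/-- **The data of two prime ideals with the same Frobenius automorphism.** -/
theorem exists_pair [hG : IsGaloisGroup G F H] (N w : ℕ) (hN : 0 < N) (hw0 : 0 < w)
    (hw : ∀ a : Additive (US D), IsOfFinAddOrder a → w • a = 0)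
    (hroot : ∀ x ∈ US D, ∃ y : Lˣ, y ^ N = Units.map (algebraMap H L : H →* L) x)
    (Φ : L ≃ₐ[F] L) (v v' : HeightOneSpectrum (𝓞 F)) (hvS : v ∉ D.S) (hvS' : v' ∉ D.S)
    (hv : v.valuation F ((w * N : ℕ) : F) = 1) (hv' : v'.valuation F ((w * N : ℕ) : F) = 1)
    (hΦ : HasFrob Φ v) (hΦ' : HasFrob Φ v') :
    letI := actionA (H := H) (G := G) Pool.Agent.K3h25.RS.t_TRANS
      (D.S : Set (HeightOneSpectrum (𝓞 F))) ∅
    D.σ v' = D.σ v ∧ ∃ (χ χ' : Additive (US D) →+ QZ) (lam lam' kap : Additive (US D) →+ ℚ) (m : ℕ),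
      0 < m ∧ (∀ a, m • χ a = 0) ∧ (∀ a, m • χ' a = 0) ∧
      (∀ x : US D, (∀ γ : G, χ (γ • Additive.ofMul x) = 0) ↔
        ∀ u : HeightOneSpectrum (𝓞 H), Above {v} u → u.valuation H (((x : Hˣ) : H) - 1) < 1) ∧
      (∀ x : US D, (∀ γ : G, χ' (γ • Additive.ofMul x) = 0) ↔
        ∀ u : HeightOneSpectrum (𝓞 H), Above {v'} u → u.valuation H (((x : Hˣ) : H) - 1) < 1) ∧
      (∀ a, χ (D.σ v • a) = Ideal.absNorm v.asIdeal • χ a) ∧
      (∀ a, χ' (D.σ v • a) = Ideal.absNorm v'.asIdeal • χ' a) ∧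
      (∀ a, ((lam a : ℚ) : QZ) = w • χ a) ∧ (∀ a, ((lam' a : ℚ) : QZ) = w • χ' a) ∧
      (∀ a, lam a = lam' a + w * kap a) ∧ (∀ a, ((kap a : ℚ) : QZ) = χ a - χ' a) ∧
      ∀ a, ∃ z : ℤ, (lam a - (Ideal.absNorm v.asIdeal : ℕ) * lam ((D.σ v)⁻¹ • a)) -
        (lam' a - (Ideal.absNorm v'.asIdeal : ℕ) * lam' ((D.σ v)⁻¹ • a)) = N * z := by
  letI := actionA (H := H) (G := G) Pool.Agent.K3h25.RS.t_TRANS
      (D.S : Set (HeightOneSpectrum (𝓞 F))) ∅
  obtain ⟨P, u, hPu, hu, hPv, hΦv, hres⟩ := frob_data D Φ v hvS hΦ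
  obtain ⟨P', u', hPu', hu', hPv', hΦv', hres'⟩ := frob_data D Φ v' hvS' hΦ'
  have hfaith : FaithfulSMul G H := IsGaloisGroup.faithful (A := F)
  have hσ : D.σ v' = D.σ v := by
    apply eq_of_smul_eq_smul (α := H)
    intro x
    apply (algebraMap H L).injective
    rw [← hres', ← hres]
  refine ⟨hσ, ?_⟩
  rw [hσ] at hres'
  have hP : P.valuation L ((w * N : ℕ) : L) = 1 := by
    have h1 := val_eq v P hPv _ hv
    rwa [map_natCast] at h1
  have hP' : P'.valuation L ((w * N : ℕ) : L) = 1 := by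
    have h1 := val_eq v' P' hPv' _ hv'
    rwa [map_natCast] at h1
  have hle : Uhat D L N ≤ unitsAt P := by
    intro y hy
    refine Uhat_unit D hN hy P ?_
    rw [above_iff (⟨v, rfl, hPv⟩ : Above {v} P)]
    exact hvS
  have hle' : Uhat D L N ≤ unitsAt P' := by
    intro y hy
    refine Uhat_unit D hN hy P' ?_
    rw [above_iff (⟨v', rfl, hPv'⟩ : Above {v'} P')]
    exact hvS'
  obtain ⟨r, r', m, hm0, hm, hm', hr, hr', hrr⟩ :=
    exists_chars P P' (w * N) (Nat.mul_pos hw0 hN) hP hP'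
  have hfg := Uhat_fg D (L := L) hN
  obtain ⟨s, s', hs1, hs2, hs3, hs4⟩ := kummer (PhiU D N Φ (D.σ v) hres) (resU D hle r)
    (resU D hle' r') (Ideal.absNorm v.asIdeal) (Ideal.absNorm v'.asIdeal)
    (resU_frob D hle r hr Φ _ hΦv (D.σ v) hres) (resU_frob D hle' r' hr' Φ _ hΦv' (D.σ v) hres')
    (fun y hy => hrr _ _ _ (Uhat_tors D w hw y hy)) N w (fun y hy => by
      apply Additive.toMul.injective
      apply Subtype.ext
      exact Uhat_tors D w hw y hy)
  -- the `S`-units are `N`-th powers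
  have hι : ∀ a : Additive (US D), ∃ y : Additive (Uhat D L N), iotaU D L N a = N • y := by
    intro a
    obtain ⟨y, hy⟩ := hroot _ (Additive.toMul a).2
    refine ⟨Additive.ofMul ⟨y, ⟨_, (Additive.toMul a).2, hy.symm⟩⟩, ?_⟩
    apply Additive.toMul.injective
    apply Subtype.ext
    exact hy.symm
  have hισ : ∀ a : Additive (US D), iotaU D L N (D.σ v • a) =
      PhiU D N Φ (D.σ v) hres (iotaU D L N a) := by
    intro a
    apply Additive.toMul.injective
    apply Subtype.ext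
    apply Units.ext
    exact (hres _).symm
  have hισ' : ∀ a : Additive (US D), iotaU D L N ((D.σ v)⁻¹ • a) =
      (PhiU D N Φ (D.σ v) hres).symm (iotaU D L N a) := by
    intro a
    rw [AddEquiv.eq_symm_apply, ← hισ, smul_inv_smul]
  refine ⟨(resU D hle r).comp (iotaU D L N), (resU D hle' r').comp (iotaU D L N),
    w • s.comp (iotaU D L N), w • s'.comp (iotaU D L N),
    s.comp (iotaU D L N) - s'.comp (iotaU D L N), m, hm0, fun a => hm _, fun a => hm' _,
    fun x => ker_char D hle r hr v u hPu hu x, fun x => ker_char D hle' r' hr' v' u' hPu' hu' x,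
    fun a => ?_, fun a => ?_, fun a => ?_, fun a => ?_, fun a => ?_, fun a => ?_, fun a => ?_⟩
  · rw [AddMonoidHom.comp_apply, AddMonoidHom.comp_apply, hισ]
    exact resU_frob D hle r hr Φ _ hΦv (D.σ v) hres _
  · rw [AddMonoidHom.comp_apply, AddMonoidHom.comp_apply, hισ]
    exact resU_frob D hle' r' hr' Φ _ hΦv' (D.σ v) hres' _
  · obtain ⟨y, hy⟩ := hι a
    rw [AddMonoidHom.nsmul_apply, AddMonoidHom.comp_apply, AddMonoidHom.comp_apply, hy,
      AddCircle.coe_nsmul]
    exact hs1 y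
  · obtain ⟨y, hy⟩ := hι a
    rw [AddMonoidHom.nsmul_apply, AddMonoidHom.comp_apply, AddMonoidHom.comp_apply, hy,
      AddCircle.coe_nsmul]
    exact hs2 y
  · rw [AddMonoidHom.nsmul_apply, AddMonoidHom.nsmul_apply, AddMonoidHom.sub_apply, nsmul_eq_mul,
      nsmul_eq_mul]
    ring
  · rw [AddMonoidHom.sub_apply]
    exact hs3 _
  · obtain ⟨y, hy⟩ := hι a
    obtain ⟨z, hz⟩ := hs4 y
    refine ⟨w * z, ?_⟩
    simp only [AddMonoidHom.nsmul_apply, AddMonoidHom.comp_apply, hισ', hy, map_nsmul,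
      nsmul_eq_mul]
    push_cast
    rw [← hz]
    ring

end Pool.Agent.U360.RS
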